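import Pool.Agent.H30.Diam.Defs

/-! Basic facts on `EL`, `DL`, `Ev`, `Dv`, `ind`. -/

namespace Pool.Agent.H30.Diam

open Finset

section lists
variable {α : Type} [DecidableEq α]

theorem EL_add (q : ℝ) : ∀ (l : List α) (f g : Finset α → ℝ),
    EL q l (fun W => f W + g W) = EL q l f + EL q l g
  | [], _, _ => rfl
  | a :: l, f, g => by
      simp only [EL]
      rw [EL_add q l f g, EL_add q l (fun W => f (insert a W)) (fun W => g (insert a W))]; ring

theorem EL_mul (q c : ℝ) : ∀ (l : List α) (f : Finset α → ℝ),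
    EL q l (fun W => c * f W) = c * EL q l f
  | [], _ => rfl
  | a :: l, f => by
      simp only [EL]
      rw [EL_mul q c l f, EL_mul q c l (fun W => f (insert a W))]; ring

theorem EL_sub (q : ℝ) (l : List α) (f g : Finset α → ℝ) :
    EL q l (fun W => f W - g W) = EL q l f - EL q l g := by
  have h := EL_add q l f (fun W => (-1) * g W)
  rw [EL_mul] at h
  have e : (fun W => f W - g W) = fun W => f W + (-1) * g W := by funext W; ring
  rw [e, h]; ring

theorem EL_const (q c : ℝ) : ∀ (l : List α), EL q l (fun _ => c) = c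
  | [] => rfl
  | a :: l => by simp only [EL]; rw [EL_const q c l]; ring

theorem EL_sum {ι : Type*} (q : ℝ) (l : List α) (s : Finset ι) (f : ι → Finset α → ℝ) :
    EL q l (fun W => ∑ i ∈ s, f i W) = ∑ i ∈ s, EL q l (f i) := by
  classical
  induction s using Finset.induction_on with
  | empty => simp only [Finset.sum_empty]; exact EL_const q 0 l
  | insert i s hi ih =>
      simp only [Finset.sum_insert hi]
      rw [EL_add, ih]

/-- monotonicity, pointwise for `W ⊆ l.toFinset`. -/
theorem EL_mono {q : ℝ} (h0 : 0 ≤ q) (h1 : q ≤ 1) : ∀ (l : List α) (f g : Finset α → ℝ),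
    (∀ W, W ⊆ l.toFinset → f W ≤ g W) → EL q l f ≤ EL q l g
  | [], f, g, h => h ∅ (by simp)
  | a :: l, f, g, h => by
      simp only [EL]
      have e1 : EL q l f ≤ EL q l g := EL_mono h0 h1 l f g (fun W hW => h W (by
        intro x hx; have := hW hx; simp only [List.toFinset_cons, Finset.mem_insert]; exact Or.inr this))
      have e2 : EL q l (fun W => f (insert a W)) ≤ EL q l (fun W => g (insert a W)) :=
        EL_mono h0 h1 l _ _ (fun W hW => h (insert a W) (by
          intro x hx; simp only [List.toFinset_cons, Finset.mem_insert] at hx ⊢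
          rcases hx with hx | hx
          · exact Or.inl hx
          · exact Or.inr (hW hx)))
      have := mul_le_mul_of_nonneg_left e1 (by linarith : (0:ℝ) ≤ 1 - q)
      have := mul_le_mul_of_nonneg_left e2 h0
      linarith

theorem EL_nonneg {q : ℝ} (h0 : 0 ≤ q) (h1 : q ≤ 1) (l : List α) (f : Finset α → ℝ)
    (h : ∀ W, 0 ≤ f W) : 0 ≤ EL q l f := by
  have := EL_mono h0 h1 l (fun _ => 0) f (fun W _ => h W)
  rwa [EL_const] at this

theorem DL_add (q : ℝ) : ∀ (l : List α) (f g : Finset α → Finset α → ℝ),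
    DL q l (fun W W' => f W W' + g W W') = DL q l f + DL q l g
  | [], _, _ => rfl
  | a :: l, f, g => by
      simp only [DL]
      rw [DL_add q l f g, DL_add q l (fun W W' => f (insert a W) W') (fun W W' => g (insert a W) W'),
        DL_add q l (fun W W' => f W (insert a W')) (fun W W' => g W (insert a W'))]; ring

theorem DL_mul (q c : ℝ) : ∀ (l : List α) (f : Finset α → Finset α → ℝ),
    DL q l (fun W W' => c * f W W') = c * DL q l f
  | [], _ => rfl
  | a :: l, f => by
      simp only [DL]
      rw [DL_mul q c l f, DL_mul q c l (fun W W' => f (insert a W) W'),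
        DL_mul q c l (fun W W' => f W (insert a W'))]; ring

theorem DL_sub (q : ℝ) (l : List α) (f g : Finset α → Finset α → ℝ) :
    DL q l (fun W W' => f W W' - g W W') = DL q l f - DL q l g := by
  have h := DL_add q l f (fun W W' => (-1) * g W W')
  rw [DL_mul] at h
  have e : (fun W W' => f W W' - g W W') = fun W W' => f W W' + (-1) * g W W' := by
    funext W W'; ring
  rw [e, h]; ring

theorem DL_const (q c : ℝ) : ∀ (l : List α), DL q l (fun _ _ => c) = c
  | [] => rfl
  | a :: l => by simp only [DL]; rw [DL_const q c l]; ring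

theorem DL_sum {ι : Type*} (q : ℝ) (l : List α) (s : Finset ι)
    (f : ι → Finset α → Finset α → ℝ) :
    DL q l (fun W W' => ∑ i ∈ s, f i W W') = ∑ i ∈ s, DL q l (f i) := by
  classical
  induction s using Finset.induction_on with
  | empty => simp only [Finset.sum_empty]; exact DL_const q 0 l
  | insert i s hi ih =>
      simp only [Finset.sum_insert hi]
      rw [DL_add, ih]

/-- the left marginal of the pair is the `q`-random set. -/
theorem DL_left (q : ℝ) : ∀ (l : List α) (g : Finset α → ℝ),
    DL q l (fun W _ => g W) = EL q l g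
  | [], _ => rfl
  | a :: l, g => by
      simp only [DL, EL]
      rw [DL_left q l g, DL_left q l (fun W => g (insert a W))]; ring

theorem DL_right (q : ℝ) : ∀ (l : List α) (g : Finset α → ℝ),
    DL q l (fun _ W' => g W') = EL q l g
  | [], _ => rfl
  | a :: l, g => by
      simp only [DL, EL]
      rw [DL_right q l g, DL_right q l (fun W => g (insert a W))]; ring

/-- monotonicity, pointwise for disjoint `W, W' ⊆ l.toFinset`. -/
theorem DL_mono {q : ℝ} (h0 : 0 ≤ q) (h1 : q ≤ 1 / 2) : ∀ (l : List α), l.Nodup →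
    ∀ (f g : Finset α → Finset α → ℝ),
    (∀ W W', W ⊆ l.toFinset → W' ⊆ l.toFinset → Disjoint W W' → f W W' ≤ g W W') →
    DL q l f ≤ DL q l g
  | [], _, f, g, h => h ∅ ∅ (by simp) (by simp) (by simp)
  | a :: l, hl, f, g, h => by
      have hal : a ∉ l := (List.nodup_cons.1 hl).1
      have hl' := (List.nodup_cons.1 hl).2
      have hsub : ∀ W : Finset α, W ⊆ l.toFinset → W ⊆ (a :: l).toFinset := by
        intro W hW x hx
        simp only [List.toFinset_cons, Finset.mem_insert]; exact Or.inr (hW hx)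
      have hins : ∀ W : Finset α, W ⊆ l.toFinset → insert a W ⊆ (a :: l).toFinset := by
        intro W hW x hx
        simp only [List.toFinset_cons, Finset.mem_insert] at hx ⊢
        rcases hx with hx | hx
        · exact Or.inl hx
        · exact Or.inr (hW hx)
      have hna : ∀ W : Finset α, W ⊆ l.toFinset → a ∉ W := by
        intro W hW ha; exact hal (List.mem_toFinset.1 (hW ha))
      have e1 : DL q l f ≤ DL q l g := DL_mono h0 h1 l hl' f g (fun W W' hW hW' hd =>
        h W W' (hsub W hW) (hsub W' hW') hd)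
      have e2 : DL q l (fun W W' => f (insert a W) W') ≤ DL q l (fun W W' => g (insert a W) W') :=
        DL_mono h0 h1 l hl' _ _ (fun W W' hW hW' hd => h (insert a W) W' (hins W hW) (hsub W' hW')
          (Finset.disjoint_insert_left.2 ⟨hna W' hW', hd⟩))
      have e3 : DL q l (fun W W' => f W (insert a W')) ≤ DL q l (fun W W' => g W (insert a W')) :=
        DL_mono h0 h1 l hl' _ _ (fun W W' hW hW' hd => h W (insert a W') (hsub W hW) (hins W' hW')
          (Finset.disjoint_insert_right.2 ⟨hna W hW, hd⟩))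
      simp only [DL]
      have := mul_le_mul_of_nonneg_left e1 (by linarith : (0:ℝ) ≤ 1 - 2 * q)
      have := mul_le_mul_of_nonneg_left e2 h0
      have := mul_le_mul_of_nonneg_left e3 h0
      linarith

end lists

theorem ind_nonneg (p : Prop) : 0 ≤ ind p := by unfold ind; split_ifs <;> norm_num

theorem ind_le_one (p : Prop) : ind p ≤ 1 := by unfold ind; split_ifs <;> norm_num

theorem ind_true {p : Prop} (h : p) : ind p = 1 := by unfold ind; rw [if_pos h]

theorem ind_false {p : Prop} (h : ¬ p) : ind p = 0 := by unfold ind; rw [if_neg h]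

theorem ind_not (p : Prop) : ind (¬ p) = 1 - ind p := by
  by_cases h : p
  · rw [ind_true h, ind_false (not_not.2 h)]; ring
  · rw [ind_true h, ind_false h]; ring

theorem ind_mono {p r : Prop} (h : p → r) : ind p ≤ ind r := by
  by_cases hp : p
  · rw [ind_true hp, ind_true (h hp)]
  · rw [ind_false hp]; exact ind_nonneg r

theorem ind_and (p r : Prop) : ind (p ∧ r) = ind p * ind r := by
  by_cases hp : p <;> by_cases hr : r
  · rw [ind_true hp, ind_true hr, ind_true ⟨hp, hr⟩]; ring
  · rw [ind_true hp, ind_false hr, ind_false (fun h => hr h.2)]; ring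
  · rw [ind_false hp, ind_true hr, ind_false (fun h => hp h.1)]; ring
  · rw [ind_false hp, ind_false hr, ind_false (fun h => hp h.1)]; ring

theorem ind_sq (p : Prop) : ind p ^ 2 = ind p := by
  by_cases hp : p
  · rw [ind_true hp]; norm_num
  · rw [ind_false hp]; norm_num

section types
variable {V : Type} [Fintype V] [DecidableEq V]

theorem Ev_add (q : ℝ) (f g : Finset V → ℝ) :
    Ev q (fun W => f W + g W) = Ev q f + Ev q g := EL_add q _ f g

theorem Ev_mul (q c : ℝ) (f : Finset V → ℝ) : Ev q (fun W => c * f W) = c * Ev q f :=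
  EL_mul q c _ f

theorem Ev_sub (q : ℝ) (f g : Finset V → ℝ) :
    Ev q (fun W => f W - g W) = Ev q f - Ev q g := EL_sub q _ f g

theorem Ev_const (q c : ℝ) : Ev q (fun _ : Finset V => c) = c := EL_const q c _

theorem Ev_sum {ι : Type*} (q : ℝ) (s : Finset ι) (f : ι → Finset V → ℝ) :
    Ev q (fun W => ∑ i ∈ s, f i W) = ∑ i ∈ s, Ev q (f i) := EL_sum q _ s f

theorem Ev_mono {q : ℝ} (h0 : 0 ≤ q) (h1 : q ≤ 1) {f g : Finset V → ℝ} (h : ∀ W, f W ≤ g W) :
    Ev q f ≤ Ev q g := EL_mono h0 h1 _ f g (fun W _ => h W)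

theorem Ev_nonneg {q : ℝ} (h0 : 0 ≤ q) (h1 : q ≤ 1) {f : Finset V → ℝ} (h : ∀ W, 0 ≤ f W) :
    0 ≤ Ev q f := EL_nonneg h0 h1 _ f h

theorem Dv_add (q : ℝ) (f g : Finset V → Finset V → ℝ) :
    Dv q (fun W W' => f W W' + g W W') = Dv q f + Dv q g := DL_add q _ f g

theorem Dv_mul (q c : ℝ) (f : Finset V → Finset V → ℝ) :
    Dv q (fun W W' => c * f W W') = c * Dv q f := DL_mul q c _ f

theorem Dv_sub (q : ℝ) (f g : Finset V → Finset V → ℝ) :
    Dv q (fun W W' => f W W' - g W W') = Dv q f - Dv q g := DL_sub q _ f g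

theorem Dv_const (q c : ℝ) : Dv q (fun _ _ : Finset V => c) = c := DL_const q c _

theorem Dv_sum {ι : Type*} (q : ℝ) (s : Finset ι) (f : ι → Finset V → Finset V → ℝ) :
    Dv q (fun W W' => ∑ i ∈ s, f i W W') = ∑ i ∈ s, Dv q (f i) := DL_sum q _ s f

theorem Dv_left (q : ℝ) (g : Finset V → ℝ) : Dv q (fun W _ => g W) = Ev q g := DL_left q _ g

theorem Dv_right (q : ℝ) (g : Finset V → ℝ) : Dv q (fun _ W' => g W') = Ev q g := DL_right q _ g

theorem Dv_mono {q : ℝ} (h0 : 0 ≤ q) (h1 : q ≤ 1 / 2) {f g : Finset V → Finset V → ℝ}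
    (h : ∀ W W', Disjoint W W' → f W W' ≤ g W W') : Dv q f ≤ Dv q g :=
  DL_mono h0 h1 _ (Finset.nodup_toList _) f g (fun W W' _ _ hd => h W W' hd)

/-- if the expectation is below `c` there is a disjoint pair with value below `c`. -/
theorem Dv_exists {q : ℝ} (h0 : 0 ≤ q) (h1 : q ≤ 1 / 2) {f : Finset V → Finset V → ℝ} {c : ℝ}
    (h : Dv q f < c) : ∃ W W', Disjoint W W' ∧ f W W' < c := by
  by_contra hc
  push Not at hc
  have := Dv_mono h0 h1 (f := fun _ _ => c) (g := f) hc
  rw [Dv_const] at this
  linarith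

theorem Ev_exists {q : ℝ} (h0 : 0 ≤ q) (h1 : q ≤ 1) {f : Finset V → ℝ} {c : ℝ}
    (h : c ≤ Ev q f) : ∃ W, c ≤ f W := by
  obtain ⟨W, _, hW⟩ := Finset.exists_max_image (univ : Finset (Finset V)) f ⟨∅, mem_univ _⟩
  refine ⟨W, h.trans ?_⟩
  have := Ev_mono h0 h1 (f := f) (g := fun _ => f W) (fun W' => hW W' (mem_univ _))
  rwa [Ev_const] at this

end types

end Pool.Agent.H30.Diam
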