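import Pool.Agent.H30.Diam.Stubs
import Pool.Agent.H30.Diam.Basics

/-! DIAM-15: structure theorem. -/

namespace Pool.Agent.H30.Diam

open Finset

section
variable {V : Type} [Fintype V] [DecidableEq V]

omit [Fintype V] in
theorem symmDiff_right_inj' (X : Finset V) : Function.Injective (fun F : Finset V => symmDiff F X) := by
  intro F G h
  have h' : symmDiff F X = symmDiff G X := h
  have := congrArg (fun S => symmDiff S X) h'
  simpa [symmDiff_assoc] using this

omit [Fintype V] in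
theorem card_sh_lev (𝓔 : Finset (Finset V)) (X : Finset V) (k : ℕ) :
    (lev (sh X 𝓔) k).card = (𝓔.filter (fun F => (symmDiff F X).card = k)).card := by
  unfold lev sh
  rw [Finset.filter_image, Finset.card_image_of_injective _ (symmDiff_right_inj' X)]

omit [Fintype V] in
theorem card_symmDiff_add (F X : Finset V) :
    (symmDiff F X).card + 2 * (F ∩ X).card = F.card + X.card := by
  have h1 : (symmDiff F X).card = (F \ X).card + (X \ F).card := by
    rw [symmDiff_def, Finset.sup_eq_union]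
    exact Finset.card_union_of_disjoint (Finset.disjoint_left.2 (fun a ha hb =>
      (Finset.mem_sdiff.1 hb).2 (Finset.mem_sdiff.1 ha).1))
  have h2 := Finset.card_sdiff_add_card_inter F X
  have h3 := Finset.card_sdiff_add_card_inter X F
  rw [Finset.inter_comm X F] at h3
  omega

theorem good_of_pop (hre : S_recentre) {d m : ℕ} {q : ℝ} (hp : Par d m q)
    (hm : Fintype.card V = m) {𝓔 : Finset (Finset V)} (hF : Fam d 𝓔) {X : Finset V}
    (hX : X.card = 2) {G : Finset (Finset V)} (hG : G ⊆ lev 𝓔 (d + 2)) (hGn : G.Nonempty)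
    (hpop : (1 / 100 : ℝ) ≤ Ev q (fun W => ind (X ⊆ lo G W ∧ (lo G W).card ≤ 3))) :
    Good d (sh X 𝓔) 1 := by
  intro i hi
  have hq0 := hp.q0.le
  have hq1 : q ≤ 1 := hp.q1.trans (by norm_num)
  rw [hm]
  refine hre d m q hp V hm 𝓔 hF 1 i 1 G X hG hGn hX le_rfl hp.d1 hi.le (by omega) (hpop.trans ?_)
  refine Ev_mono hq0 hq1 (fun W => ind_mono ?_)
  rintro ⟨h1, h2⟩
  refine ⟨?_, by omega⟩
  have := Finset.card_sdiff_add_card_inter (lo G W) X
  rw [Finset.inter_eq_right.2 h1] at this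
  omega

omit [Fintype V] in
theorem count_min {d : ℕ} {𝓔 : Finset (Finset V)} {X : Finset V} (hX : X.card = 2)
    (hmin : (lev 𝓔 (d + 2)).card ≤ (lev (sh X 𝓔) (d + 2)).card) :
    ((lev 𝓔 (d + 2)).filter (fun F => X ⊆ F)).card ≤
      ((lev 𝓔 d).filter (fun F => Disjoint F X)).card + (lev 𝓔 (d + 2 * 2)).card := by
  rw [card_sh_lev] at hmin
  have h1 : (𝓔.filter (fun F => (symmDiff F X).card = d + 2)) ⊆
      ((lev 𝓔 d).filter (fun F => Disjoint F X)) ∪
      (((lev 𝓔 (d + 2)).filter (fun F => (F ∩ X).card = 1)) ∪ (lev 𝓔 (d + 2 * 2))) := by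
    intro F hF
    rw [Finset.mem_filter] at hF
    have hc := card_symmDiff_add F X
    have hle : (F ∩ X).card ≤ 2 := hX ▸ Finset.card_le_card Finset.inter_subset_right
    unfold lev
    simp only [Finset.mem_union, Finset.mem_filter]
    rcases Nat.lt_or_ge (F ∩ X).card 1 with h0 | h0
    · left
      refine ⟨⟨hF.1, by omega⟩, ?_⟩
      rw [Finset.disjoint_iff_inter_eq_empty, ← Finset.card_eq_zero]; omega
    · rcases Nat.lt_or_ge (F ∩ X).card 2 with h2 | h2
      · right; left; exact ⟨⟨hF.1, by omega⟩, by omega⟩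
      · right; right; exact ⟨hF.1, by omega⟩
  have h2 := Finset.card_le_card h1
  have h3 := Finset.card_union_le ((lev 𝓔 d).filter (fun F => Disjoint F X))
    (((lev 𝓔 (d + 2)).filter (fun F => (F ∩ X).card = 1)) ∪ (lev 𝓔 (d + 2 * 2)))
  have h4 := Finset.card_union_le ((lev 𝓔 (d + 2)).filter (fun F => (F ∩ X).card = 1))
    (lev 𝓔 (d + 2 * 2))
  have h5 : ((lev 𝓔 (d + 2)).filter (fun F => X ⊆ F)).card +
      ((lev 𝓔 (d + 2)).filter (fun F => (F ∩ X).card = 1)).card ≤ (lev 𝓔 (d + 2)).card := by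
    rw [← Finset.card_union_of_disjoint]
    · exact Finset.card_le_card (Finset.union_subset (Finset.filter_subset _ _)
        (Finset.filter_subset _ _))
    · rw [Finset.disjoint_filter]
      intro F _ hXF h1
      rw [Finset.inter_eq_right.2 hXF] at h1
      omega
  omega

/-- few `(d+2)`-sets contain a given `4`-set. -/
theorem cnt4 {d m : ℕ} (hd : 1 ≤ d) (hm : Fintype.card V = m) (hlarge : 10 ^ 12 * d ≤ m)
    (𝓔 : Finset (Finset V)) (R : Finset V) (hR : R.card = 4) :
    (((lev 𝓔 (d + 2)).filter (fun F => R ⊆ F)).card : ℝ) ≤ (1 / 10 ^ 11) * U d m := by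
  have hUn : 0 ≤ U d m := by unfold U; positivity
  rcases Nat.lt_or_ge d 2 with hd2 | hd2
  · have : (lev 𝓔 (d + 2)).filter (fun F => R ⊆ F) = ∅ := by
      rw [Finset.filter_eq_empty_iff]
      intro F hF hRF
      unfold lev at hF
      rw [Finset.mem_filter] at hF
      have := Finset.card_le_card hRF
      omega
    rw [this]; simp; positivity
  · have h1 : ((lev 𝓔 (d + 2)).filter (fun F => R ⊆ F)).card ≤
        (Finset.powersetCard (d - 2) (univ \ R)).card := by
      apply Finset.card_le_card_of_injOn (fun F => F \ R)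
      · intro F hF
        rw [Finset.mem_coe, Finset.mem_filter] at hF
        unfold lev at hF
        rw [Finset.mem_filter] at hF
        rw [Finset.mem_coe, Finset.mem_powersetCard]
        refine ⟨Finset.sdiff_subset_sdiff (Finset.subset_univ _) subset_rfl, ?_⟩
        rw [Finset.card_sdiff_of_subset hF.2, hR]; omega
      · intro F hF F' hF' h
        rw [Finset.mem_coe, Finset.mem_filter] at hF hF'
        have e1 := Finset.sdiff_union_of_subset hF.2
        have e2 := Finset.sdiff_union_of_subset hF'.2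
        have h' : F \ R = F' \ R := h
        rw [← e1, ← e2, h']
    rw [Finset.card_powersetCard, Finset.card_sdiff_of_subset (Finset.subset_univ _),
      Finset.card_univ, hm, hR] at h1
    obtain ⟨k, rfl⟩ : ∃ k, d = k + 2 := ⟨d - 2, by omega⟩
    obtain ⟨n, rfl⟩ : ∃ n, m = n + 4 := ⟨m - 4, by omega⟩
    have h2 := Nat.add_one_mul_choose_eq n k
    unfold U
    have e1 : n + 4 - 4 = n := by omega
    have e2 : n + 4 - 3 = n + 1 := by omega
    have e3 : k + 2 - 2 = k := by omega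
    have e4 : k + 2 - 1 = k + 1 := by omega
    rw [e1, e3] at h1
    rw [e2, e4]
    have h3 : 10 ^ 11 * ((n.choose k)) ≤ (n + 1).choose (k + 1) := by
      have h4 : 10 ^ 11 * (k + 1) ≤ n + 1 := by omega
      have h5 : (10 ^ 11 * n.choose k) * (k + 1) ≤ (n + 1).choose (k + 1) * (k + 1) := by
        calc (10 ^ 11 * n.choose k) * (k + 1) = (10 ^ 11 * (k + 1)) * n.choose k := by ring
          _ ≤ (n + 1) * n.choose k := Nat.mul_le_mul_right _ h4
          _ = (n + 1).choose (k + 1) * (k + 1) := h2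
      exact Nat.le_of_mul_le_mul_right h5 (Nat.succ_pos k)
    have h6 : ((10 ^ 11 * n.choose k : ℕ) : ℝ) ≤ ((n + 1).choose (k + 1) : ℕ) := by exact_mod_cast h3
    push_cast at h6
    have h7 : (((lev 𝓔 (k + 2 + 2)).filter (fun F => R ⊆ F)).card : ℝ) ≤ (n.choose k : ℝ) := by
      exact_mod_cast h1
    linarith

end

theorem Par.large {d m : ℕ} {q : ℝ} (hp : Par d m q) : 10 ^ 12 * d ≤ m := by
  have h1 : q ^ 1601 ≤ 1 / 10 ^ 15 := by
    calc q ^ 1601 ≤ q ^ 1 := pow_le_pow_of_le_one hp.q0.le (hp.q1.trans (by norm_num)) (by norm_num)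
      _ = q := pow_one q
      _ ≤ _ := hp.q1
  have h2 : q ^ 1601 * m ≤ 1 / 10 ^ 15 * m := mul_le_mul_of_nonneg_right h1 (Nat.cast_nonneg m)
  rw [hp.hq] at h2
  have h3 : ((10 ^ 12 * d : ℕ) : ℝ) ≤ (m : ℕ) := by push_cast; linarith
  exact_mod_cast h3

theorem Par.U_pos {d m : ℕ} {q : ℝ} (hp : Par d m q) : 1 ≤ U d m := by
  unfold U
  have h1 := hp.large
  have h2 := hp.d1
  have : 0 < (m - 3).choose (d - 1) := Nat.choose_pos (by omega)
  exact_mod_cast this

theorem struct (hre : S_recentre) (hpp : S_popPair) (htr : S_triple) (hca : S_capt) : S_struct := by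
  intro d m q hp V _ _ hm 𝓔 hF hG hmin hbig
  have hU := hp.U_pos
  have hq0 := hp.q0.le
  have hq1 : q ≤ 1 := hp.q1.trans (by norm_num)
  set u := U d m with hu
  have hE2 : ((lev 𝓔 (d + 2 * 2)).card : ℝ) ≤ (1 / 2 ^ 33) * u := by
    have := hG 2 (by norm_num)
    rw [hm] at this
    refine this.trans (le_of_eq ?_)
    rw [← hu]; unfold eps; norm_num
  have hdel : del = 1 / 2 ^ 23 := rfl
  have htau : tau = 1 / 2 ^ 31 := rfl
  have hbig' : (1 / 2 ^ 23 : ℝ) * u ≤ (lev 𝓔 (d + 2)).card := hbig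
  -- optimality at a popular pair
  have hopt : ∀ X : Finset V, X.card = 2 → ∀ G : Finset (Finset V), G ⊆ lev 𝓔 (d + 2) → G.Nonempty →
      (1 / 100 : ℝ) ≤ Ev q (fun W => ind (X ⊆ lo G W ∧ (lo G W).card ≤ 3)) →
      (((lev 𝓔 (d + 2)).filter (fun F => X ⊆ F)).card : ℝ) - (1 / 2 ^ 33) * u ≤
      ((lev 𝓔 d).filter (fun F => Disjoint F X)).card := by
    intro X hX G hGs hGn hpop
    have h1 := count_min hX (hmin X hX (good_of_pop hre hp hm hF hX hGs hGn hpop))
    have h2 : (((lev 𝓔 (d + 2)).filter (fun F => X ⊆ F)).card : ℝ) ≤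
      ((lev 𝓔 d).filter (fun F => Disjoint F X)).card + (lev 𝓔 (d + 2 * 2)).card := by exact_mod_cast h1
    linarith
  -- small families
  have hsm1 : ∀ (z : V) (G : Finset (Finset V)), G ⊆ lev 𝓔 d → G.Nonempty →
      (1 / 100 : ℝ) ≤ Ev q (fun W => ind (lo G W = {z})) →
      (((lev 𝓔 (d + 2)).filter (fun F => z ∉ F)).card : ℝ) < (1 / 2 ^ 31) * u := by
    intro z G hGs hGn hpop
    by_contra hc
    push Not at hc
    obtain ⟨F, hFm, hFc⟩ := hca d m q hp V hm 𝓔 hF 0 1 G _ {z} (by norm_num) le_rfl (by simpa using hGs) hGn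
      (Finset.filter_subset (fun F => z ∉ F) (lev 𝓔 (d + 2))) hc (by simp) hpop
    rw [Finset.mem_filter] at hFm
    have : F ∩ {z} = ∅ := by
      rw [← Finset.disjoint_iff_inter_eq_empty, Finset.disjoint_singleton_right]; exact hFm.2
    rw [this] at hFc
    simp at hFc
  -- step 4
  obtain ⟨X, hX, ⟨G, hGs, hGn, hpop⟩, hfifth⟩ := hpp d m q hp V hm 𝓔 hF hbig
  have hX0 := hopt X hX G hGs hGn hpop
  have hB1 : tau * U d m ≤ ((lev 𝓔 (d + 2)).filter (fun F => X ⊆ F)).card := by
    rw [htau, ← hu]; linarith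
  have hB0 : tau * U d m ≤ ((lev 𝓔 d).filter (fun F => Disjoint F X)).card := by
    rw [htau, ← hu]; linarith
  obtain ⟨z, hz, hz1, hz0⟩ := htr d m q hp V hm 𝓔 hF X hX hB1 hB0
  set B1 := (lev 𝓔 (d + 2)).filter (fun F => X ⊆ F) with hB1d
  set B0 := (lev 𝓔 d).filter (fun F => Disjoint F X) with hB0d
  have hB1n : B1.Nonempty := by
    rw [← Finset.card_pos]
    have : (0:ℝ) < B1.card := by
      refine lt_of_lt_of_le ?_ hB1
      rw [htau, ← hu]; positivity
    exact_mod_cast this
  have hB0n : B0.Nonempty := by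
    rw [← Finset.card_pos]
    have : (0:ℝ) < B0.card := by
      refine lt_of_lt_of_le ?_ hB0
      rw [htau, ← hu]; positivity
    exact_mod_cast this
  set Q := insert z X with hQ
  have hQc : Q.card = 3 := by rw [hQ, Finset.card_insert_of_notMem hz, hX]
  -- step 5
  have h5a : (((lev 𝓔 (d + 2)).filter (fun F => z ∉ F)).card : ℝ) < (1 / 2 ^ 31) * u :=
    hsm1 z B0 (Finset.filter_subset _ _) hB0n (le_trans (by norm_num) hz0)
  have h5b : (((lev 𝓔 d).filter (fun F => Disjoint F Q)).card : ℝ) < (1 / 2 ^ 31) * u := by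
    by_contra hc
    push Not at hc
    obtain ⟨F, hFm, hFc⟩ := hca d m q hp V hm 𝓔 hF 1 0 B1 _ Q le_rfl (by norm_num)
      (by rw [hB1d]; exact Finset.filter_subset (fun F => X ⊆ F) (lev 𝓔 (d + 2))) hB1n
      (Finset.filter_subset (fun F => Disjoint F Q) (lev 𝓔 d)) hc hQc.le
      (le_trans (by norm_num) hz1)
    rw [Finset.mem_filter, Finset.disjoint_iff_inter_eq_empty] at hFm
    rw [hFm.2] at hFc
    simp at hFc
  -- step 6
  have h6 : (B1.card : ℝ) ≤ ((lev 𝓔 (d + 2)).filter (fun F => Q ⊆ F)).card +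
      ((lev 𝓔 (d + 2)).filter (fun F => z ∉ F)).card := by
    have : B1 ⊆ ((lev 𝓔 (d + 2)).filter (fun F => Q ⊆ F)) ∪
      ((lev 𝓔 (d + 2)).filter (fun F => z ∉ F)) := by
      intro F hFm
      rw [hB1d, Finset.mem_filter] at hFm
      rw [Finset.mem_union, Finset.mem_filter, Finset.mem_filter]
      by_cases hzF : z ∈ F
      · left; exact ⟨hFm.1, Finset.insert_subset hzF hFm.2⟩
      · right; exact ⟨hFm.1, hzF⟩
    have h := (Finset.card_le_card this).trans (Finset.card_union_le _ _)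
    exact_mod_cast h
  have h6' : (1 / 2 ^ 26 : ℝ) * u ≤ ((lev 𝓔 (d + 2)).filter (fun F => Q ⊆ F)).card := by
    have : (1 / 5 : ℝ) * ((1 / 2 ^ 23 : ℝ) * u) ≤ B1.card := by
      refine le_trans ?_ hfifth
      exact mul_le_mul_of_nonneg_left hbig' (by norm_num)
    linarith
  have h6'' : (1 / 5 : ℝ) * ((1 / 2 ^ 23 : ℝ) * u) - (1 / 2 ^ 31) * u ≤
      ((lev 𝓔 (d + 2)).filter (fun F => Q ⊆ F)).card := by
    have : (1 / 5 : ℝ) * ((1 / 2 ^ 23 : ℝ) * u) ≤ B1.card := by
      refine le_trans ?_ hfifth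
      exact mul_le_mul_of_nonneg_left hbig' (by norm_num)
    linarith
  -- pairs inside Q
  have hpairs : ∀ X' : Finset V, X' ⊆ Q → X'.card = 2 →
      (((lev 𝓔 (d + 2)).filter (fun F => Q ⊆ F)).card : ℝ) - (1 / 2 ^ 33) * u ≤
      ((lev 𝓔 d).filter (fun F => Disjoint F X')).card := by
    intro X' hX'Q hX'
    have h1 := hopt X' hX' B1 (Finset.filter_subset _ _) hB1n (le_trans (by norm_num)
      (hz1.trans (Ev_mono hq0 hq1 (fun W => ind_mono (fun h => by
        rw [h]; exact ⟨hX'Q, hQc.le⟩)))))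
    have h2 : ((lev 𝓔 (d + 2)).filter (fun F => Q ⊆ F)).card ≤
        ((lev 𝓔 (d + 2)).filter (fun F => X' ⊆ F)).card :=
      Finset.card_le_card (Finset.monotone_filter_right _ (fun F _ h => hX'Q.trans h))
    have h3 : (((lev 𝓔 (d + 2)).filter (fun F => Q ⊆ F)).card : ℝ) ≤
        ((lev 𝓔 (d + 2)).filter (fun F => X' ⊆ F)).card := by exact_mod_cast h2
    linarith
  -- step 7: every element of Q is in most of the top sets
  have h7 : ∀ x ∈ Q, (((lev 𝓔 (d + 2)).filter (fun F => x ∉ F)).card : ℝ) < (1 / 2 ^ 31) * u := by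
    intro x hx
    set X' := Q.erase x with hX'd
    have hX'Q : X' ⊆ Q := Finset.erase_subset _ _
    have hX' : X'.card = 2 := by rw [hX'd, Finset.card_erase_of_mem hx, hQc]
    have hp1 := hpairs X' hX'Q hX'
    have hB0' : tau * U d m ≤ ((lev 𝓔 d).filter (fun F => Disjoint F X')).card := by
      rw [htau, ← hu]; linarith
    have hB1' : tau * U d m ≤ ((lev 𝓔 (d + 2)).filter (fun F => X' ⊆ F)).card := by
      have h2 : ((lev 𝓔 (d + 2)).filter (fun F => Q ⊆ F)).card ≤
        ((lev 𝓔 (d + 2)).filter (fun F => X' ⊆ F)).card :=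
        Finset.card_le_card (Finset.monotone_filter_right _ (fun F _ h => hX'Q.trans h))
      have h3 : (((lev 𝓔 (d + 2)).filter (fun F => Q ⊆ F)).card : ℝ) ≤
        ((lev 𝓔 (d + 2)).filter (fun F => X' ⊆ F)).card := by exact_mod_cast h2
      rw [htau, ← hu]; linarith
    obtain ⟨z', hz', -, hz0'⟩ := htr d m q hp V hm 𝓔 hF X' hX' hB1' hB0'
    have hB0n' : ((lev 𝓔 d).filter (fun F => Disjoint F X')).Nonempty := by
      rw [← Finset.card_pos]
      have : (0:ℝ) < ((lev 𝓔 d).filter (fun F => Disjoint F X')).card := by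
        refine lt_of_lt_of_le ?_ hB0'
        rw [htau, ← hu]; positivity
      exact_mod_cast this
    have h8 := hsm1 z' _ (Finset.filter_subset _ _) hB0n' (le_trans (by norm_num) hz0')
    by_cases hzx : z' = x
    · rw [← hzx]; exact h8
    · exfalso
      have hz'Q : z' ∉ Q := by
        intro h; exact hz' (by rw [hX'd, Finset.mem_erase]; exact ⟨hzx, h⟩)
      have hR : (insert z' Q).card = 4 := by rw [Finset.card_insert_of_notMem hz'Q, hQc]
      have h9 := cnt4 hp.d1 hm hp.large 𝓔 (insert z' Q) hR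
      have h10 : (((lev 𝓔 (d + 2)).filter (fun F => Q ⊆ F)).card : ℝ) ≤
        ((lev 𝓔 (d + 2)).filter (fun F => insert z' Q ⊆ F)).card +
        ((lev 𝓔 (d + 2)).filter (fun F => z' ∉ F)).card := by
        have : ((lev 𝓔 (d + 2)).filter (fun F => Q ⊆ F)) ⊆
          ((lev 𝓔 (d + 2)).filter (fun F => insert z' Q ⊆ F)) ∪
          ((lev 𝓔 (d + 2)).filter (fun F => z' ∉ F)) := by
          intro F hFm
          rw [Finset.mem_filter] at hFm
          rw [Finset.mem_union, Finset.mem_filter, Finset.mem_filter]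
          by_cases hzF : z' ∈ F
          · left; exact ⟨hFm.1, Finset.insert_subset hzF hFm.2⟩
          · right; exact ⟨hFm.1, hzF⟩
        have h := (Finset.card_le_card this).trans (Finset.card_union_le _ _)
        exact_mod_cast h
      rw [← hu] at h9
      linarith
  refine ⟨Q, hQc, ?_, ?_, ?_, ?_⟩
  · have h8 : (lev 𝓔 (d + 2)).filter (fun F => ¬ Q ⊆ F) ⊆
        Q.biUnion (fun x => (lev 𝓔 (d + 2)).filter (fun F => x ∉ F)) := by
      intro F hFm
      rw [Finset.mem_filter, Finset.not_subset] at hFm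
      obtain ⟨hF1, x, hx, hxF⟩ := hFm
      rw [Finset.mem_biUnion]
      exact ⟨x, hx, Finset.mem_filter.2 ⟨hF1, hxF⟩⟩
    have h9 := (Finset.card_le_card h8).trans Finset.card_biUnion_le
    have h10 : (((lev 𝓔 (d + 2)).filter (fun F => ¬ Q ⊆ F)).card : ℝ) ≤
        ∑ x ∈ Q, (((lev 𝓔 (d + 2)).filter (fun F => x ∉ F)).card : ℝ) := by exact_mod_cast h9
    have h11 : ∑ x ∈ Q, (((lev 𝓔 (d + 2)).filter (fun F => x ∉ F)).card : ℝ) ≤
        ∑ x ∈ Q, (1 / 2 ^ 31 : ℝ) * u := Finset.sum_le_sum (fun x hx => (h7 x hx).le)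
    rw [Finset.sum_const, hQc] at h11
    rw [htau]
    refine (h10.trans h11).trans (le_of_eq ?_)
    rw [nsmul_eq_mul]; push_cast; ring
  · rw [htau]; exact h5b.le
  · rw [hdel]; linarith
  · intro z0 hz0Q
    have hp1 := hpairs (Q.erase z0) (Finset.erase_subset _ _)
      (by rw [Finset.card_erase_of_mem hz0Q, hQc])
    have h8 : ((lev 𝓔 d).filter (fun F => Disjoint F (Q.erase z0))) ⊆
        ((lev 𝓔 d).filter (fun F => F ∩ Q = {z0})) ∪
        ((lev 𝓔 d).filter (fun F => Disjoint F Q)) := by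
      intro F hFm
      rw [Finset.mem_filter] at hFm
      rw [Finset.mem_union, Finset.mem_filter, Finset.mem_filter]
      by_cases hzF : z0 ∈ F
      · left; refine ⟨hFm.1, ?_⟩
        ext x
        rw [Finset.mem_inter, Finset.mem_singleton]
        constructor
        · rintro ⟨h1, h2⟩
          by_contra hne
          exact Finset.disjoint_left.1 hFm.2 h1 (Finset.mem_erase.2 ⟨hne, h2⟩)
        · rintro rfl; exact ⟨hzF, hz0Q⟩
      · right; refine ⟨hFm.1, ?_⟩
        rw [Finset.disjoint_left]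
        intro x hxF hxQ
        exact Finset.disjoint_left.1 hFm.2 hxF (Finset.mem_erase.2 ⟨by rintro rfl; exact hzF hxF, hxQ⟩)
    have h9 := (Finset.card_le_card h8).trans (Finset.card_union_le _ _)
    have h10 : (((lev 𝓔 d).filter (fun F => Disjoint F (Q.erase z0))).card : ℝ) ≤
        ((lev 𝓔 d).filter (fun F => F ∩ Q = {z0})).card +
        ((lev 𝓔 d).filter (fun F => Disjoint F Q)).card := by exact_mod_cast h9
    rw [hdel]; linarith

end Pool.Agent.H30.Diam
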