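import Pool.Agent.H30.Diam.SS

/-! DIAM-25: main part. -/

namespace Pool.Agent.H30.Diam

open Finset

section
variable {V : Type} [DecidableEq V]

theorem symmDiff_singleton_erase (D : Finset V) (z : V) (hz : z ∈ D) :
    symmDiff {z} D = D.erase z := by
  ext v
  rw [Finset.mem_symmDiff, Finset.mem_singleton, Finset.mem_erase]
  constructor
  · rintro (⟨rfl, h⟩ | ⟨h1, h2⟩)
    · exact absurd hz h
    · exact ⟨h2, h1⟩
  · rintro ⟨h1, h2⟩; right; exact ⟨h2, h1⟩

theorem symmDiff_erase_singleton (D : Finset V) (z : V) (hz : z ∈ D) :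
    symmDiff (D.erase z) {z} = D := by
  ext v
  rw [Finset.mem_symmDiff, Finset.mem_singleton, Finset.mem_erase]
  constructor
  · rintro (⟨⟨_, h⟩, _⟩ | ⟨rfl, _⟩)
    · exact h
    · exact hz
  · intro h
    by_cases hv : v = z
    · right; exact ⟨hv, fun h' => h'.1 hv⟩
    · left; exact ⟨⟨hv, h⟩, hv⟩

theorem lo_eq_singleton {B : Finset (Finset V)} (hB : B.Nonempty) {W : Finset V} {z : V}
    (hz : ∀ F ∈ B, z ∈ F) (hW : z ∉ W) (h1 : (lo B W).card ≤ 1) : lo B W = {z} := by
  have h2 : z ∈ lo B W := by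
    unfold lo; rw [Finset.mem_sdiff]; exact ⟨hz _ (wit_mem hB W), hW⟩
  have h3 : ({z} : Finset V) ⊆ lo B W := Finset.singleton_subset_iff.2 h2
  exact (Finset.eq_of_subset_of_card_le h3 (by simpa using h1)).symm

theorem lo_disjoint_of {B : Finset (Finset V)} (hB : B.Nonempty) (W D : Finset V)
    (h : ∀ F ∈ B, Disjoint F D) : Disjoint (lo B W) D :=
  Finset.disjoint_of_subset_left (lo_sub B W) (h _ (wit_mem hB W))

end

theorem nonempty_of_tau {d m : ℕ} {q : ℝ} (hp : Par d m q) {α : Type} {B : Finset α}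
    (h : tau * U d m ≤ B.card) : B.Nonempty := by
  rw [← Finset.card_pos]
  have : (0:ℝ) < B.card := by
    refine lt_of_lt_of_le ?_ h
    have := hp.U_pos
    have htau : tau = 1 / 2 ^ 31 := rfl
    rw [htau]; positivity
  exact_mod_cast this

theorem ss (hsm : S_samp) (hlow : S_low) (hcp : S_commonpt) (hex : S_exactB) : S_ss := by
  intro d m q hp V _ _ hm 𝓐 𝓑 D hC hSa hSb
  by_contra hgoal
  have hU := hp.U_pos
  have hq0 := hp.q0
  have hq1 := hp.q1
  have htau : tau = 1 / 2 ^ 31 := rfl
  have hDn : D.Nonempty := by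
    rw [Finset.nonempty_iff_ne_empty]
    rintro rfl
    have := hC.odd
    simp at this
  -- both families are large
  have hbigAux : ∀ 𝓐' 𝓑' : Finset (Finset V), Cross d 𝓐' 𝓑' D → TypeS d 𝓐' → TypeS d 𝓑' →
      ¬ Goal d 𝓐' 𝓑' D → (19 / 10 : ℝ) * U d m < 𝓑'.card := by
    intro 𝓐' 𝓑' hC' hSa' hSb' hg
    by_contra hc
    push Not at hc
    obtain ⟨x, hx⟩ := hDn
    apply hg
    apply goal_of_real hp hm ∅ x (by simp)
    have h1 := ovS_empty hp hm hC'.fa hSa'
    have h2 : ov d 𝓑' (symmDiff (symmDiff ∅ {x}) D) ≤ 𝓑'.card := by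
      unfold ov; exact Finset.card_filter_le _ _
    have h3 : (ov d 𝓑' (symmDiff (symmDiff ∅ {x}) D) : ℝ) ≤ 𝓑'.card := by exact_mod_cast h2
    linarith
  have hlevAux : ∀ 𝓐' 𝓑' : Finset (Finset V), Cross d 𝓐' 𝓑' D → TypeS d 𝓐' → TypeS d 𝓑' →
      ¬ Goal d 𝓐' 𝓑' D → (3 / 2 : ℝ) * U d m ≤ (lev 𝓑' d).card := by
    intro 𝓐' 𝓑' hC' hSa' hSb' hg
    have h0 := hbigAux 𝓐' 𝓑' hC' hSa' hSb' hg
    have hcov : 𝓑' ⊆ (𝓑'.filter (fun F => d < F.card) ∪ 𝓑'.filter (fun F => F.card < d)) ∪
        lev 𝓑' d := by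
      intro F hF
      unfold lev
      simp only [Finset.mem_union, Finset.mem_filter]
      rcases lt_trichotomy F.card d with h | h | h
      · left; right; exact ⟨hF, h⟩
      · right; exact ⟨hF, h⟩
      · left; left; exact ⟨hF, h⟩
    have h1 := (Finset.card_le_card hcov).trans ((Finset.card_union_le _ _).trans
      (Nat.add_le_add_right (Finset.card_union_le _ _) _))
    have h2 : (𝓑'.card : ℝ) ≤ (𝓑'.filter (fun F => d < F.card)).card +
      (𝓑'.filter (fun F => F.card < d)).card + (lev 𝓑' d).card := by exact_mod_cast h1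
    have h3 := ov_empty_le hC'.fb hSb'.1
    have h4 := hSb'.2
    have h5 := (hlow d m q hp V hm).1 𝓑' hC'.fb
    rw [hm] at h3 h4
    have hdel : del = 1 / 2 ^ 23 := rfl
    rw [hdel] at h4
    linarith
  have hgoal' : ¬ Goal d 𝓑 𝓐 D := fun h => hgoal (h.symm hC.odd)
  have hlb := hlevAux 𝓐 𝓑 hC hSa hSb hgoal
  have hla := hlevAux 𝓑 𝓐 hC.symm hSb hSa hgoal'
  have hlaT : tau * U d m ≤ (lev 𝓐 d).card := by rw [htau]; linarith
  have hlbT : tau * U d m ≤ (lev 𝓑 d).card := by rw [htau]; linarith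
  have hEvT : Ev q (fun _ : Finset V => ind True) = 1 := by
    have : (fun _ : Finset V => ind True) = fun _ => (1:ℝ) := by funext W; exact ind_true trivial
    rw [this, Ev_const]
  -- sampling
  have hsamp : ∀ (G B : Finset (Finset V)) (J : Finset V) (p₁ p₂ : Finset V → Prop),
      G ⊆ lev 𝓐 d → B ⊆ lev 𝓑 d → tau * U d m ≤ G.card → tau * U d m ≤ B.card → J.card ≤ 10 →
      (3 / 2 : ℝ) ≤ Ev q (fun W => ind (p₁ W)) + Ev q (fun W => ind (p₂ W)) →
      ∃ W W' : Finset V, p₁ W ∧ p₂ W' ∧ (lo G W).card ≤ 1 ∧ (lo B W').card ≤ 1 ∧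
        Disjoint J W ∧ Disjoint J W' ∧
        (symmDiff (symmDiff (lo G W) (lo B W')) D).card ≤ 1 + (lo G W).card + (lo B W').card := by
    intro G B J p₁ p₂ hG hB hGt hBt hJ hEv
    obtain ⟨W, W', -, h1, h2, h3, h4, -, -, h5, h6, h7⟩ := hsm d m q hp V hm 𝓐 𝓑 D hC 0 0 G B J p₁ p₂
      (by norm_num) (by norm_num) hG hB hGt hBt hJ (by linarith)
    exact ⟨W, W', h1, h2, by simpa using h3, by simpa using h4, h5, h6, by simpa using h7⟩
  have hD5 : D.card ≤ 5 := by
    obtain ⟨W, W', -, -, h3, h4, -, -, h7⟩ := hsamp (lev 𝓐 d) (lev 𝓑 d) ∅ (fun _ => True)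
      (fun _ => True) subset_rfl subset_rfl hlaT hlbT (by simp) (by rw [hEvT]; norm_num)
    have h8 := star_ineq _ _ _ h7
    have h9 : (symmDiff (lo (lev 𝓐 d) W) (lo (lev 𝓑 d) W') ∩ D).card ≤
        (symmDiff (lo (lev 𝓐 d) W) (lo (lev 𝓑 d) W')).card :=
      Finset.card_le_card Finset.inter_subset_left
    have h10 := card_symmDiff_add (lo (lev 𝓐 d) W) (lo (lev 𝓑 d) W')
    omega
  have hodd := hC.odd
  have hcases : D.card = 1 ∨ D.card = 3 ∨ D.card = 5 := by omega
  rcases hcases with hD | hD | hD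
  · -- |D| = 1
    obtain ⟨x, hx⟩ := Finset.card_eq_one.1 hD
    apply hgoal
    apply goal_of_real hp hm ∅ x (by simp)
    have h0 : symmDiff (symmDiff ∅ {x}) D = ∅ := by
      rw [hx, ← Finset.bot_eq_empty, bot_symmDiff, symmDiff_self]
    rw [h0]
    have h1 := ovS_empty hp hm hC.fa hSa
    have h2 := ovS_empty hp hm hC.fb hSb
    linarith
  · -- |D| = 3
    by_cases ha : (((lev 𝓐 d).filter (fun F => Disjoint F D)).card : ℝ) ≤ tau * U d m
    · exact hgoal (case3 hp hlow hm hC hSa hSb hD ha)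
    by_cases hb : (((lev 𝓑 d).filter (fun F => Disjoint F D)).card : ℝ) ≤ tau * U d m
    · exact hgoal' (case3 hp hlow hm hC.symm hSb hSa hD hb)
    push Not at ha hb
    obtain ⟨x, hxD, hxa, hxb⟩ := hcp d m q hp V hm 𝓐 𝓑 D hC hD ha.le hb.le
    have key : ∀ (L L' : Finset V), L' = {x} → Disjoint L (insert x D) →
        (symmDiff (symmDiff L L') D).card ≤ 1 + L.card + L'.card → False := by
      intro L L' hL' hL h
      have h1 := star_ineq L L' D h
      have h2 : (L ∩ L').card = 0 := by
        rw [Finset.card_eq_zero, hL', ← Finset.disjoint_iff_inter_eq_empty]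
        exact Finset.disjoint_of_subset_right (by simp) hL
      have h3 : (symmDiff L L' ∩ D).card = 0 := by
        rw [Finset.card_eq_zero, ← Finset.disjoint_iff_inter_eq_empty, Finset.disjoint_left]
        intro v hv hvD
        rw [Finset.mem_symmDiff, hL', Finset.mem_singleton] at hv
        rcases hv with ⟨h, _⟩ | ⟨rfl, _⟩
        · exact Finset.disjoint_left.1 hL h (Finset.mem_insert_of_mem hvD)
        · exact hxD hvD
      omega
    have hxa' : (((lev 𝓐 d).filter (fun F => Disjoint F (insert x D))).card : ℝ) ≤ tau * U d m := by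
      by_contra hc
      push Not at hc
      obtain ⟨W, W', -, h2, -, -, -, -, h7⟩ := hsamp _ ((lev 𝓑 d).filter (fun F => Disjoint F D)) ∅
        (fun _ => True) (fun W => lo ((lev 𝓑 d).filter (fun F => Disjoint F D)) W = {x})
        (Finset.filter_subset _ _) (Finset.filter_subset _ _) hc.le hb.le (by simp)
        (by rw [hEvT]; linarith [hxb])
      have hne := nonempty_of_tau hp hc.le
      exact key _ _ h2 (lo_disjoint_of hne W _ (fun F hF => (Finset.mem_filter.1 hF).2)) h7
    have hxb' : (((lev 𝓑 d).filter (fun F => Disjoint F (insert x D))).card : ℝ) ≤ tau * U d m := by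
      by_contra hc
      push Not at hc
      obtain ⟨W, W', h1, -, -, -, -, -, h7⟩ := hsamp ((lev 𝓐 d).filter (fun F => Disjoint F D)) _ ∅
        (fun W => lo ((lev 𝓐 d).filter (fun F => Disjoint F D)) W = {x}) (fun _ => True)
        (Finset.filter_subset _ _) (Finset.filter_subset _ _) ha.le hc.le (by simp)
        (by rw [hEvT]; linarith [hxa])
      have hne := nonempty_of_tau hp hc.le
      rw [symmDiff_comm (lo _ W) (lo _ W')] at h7
      exact key _ _ h1 (lo_disjoint_of hne W' _ (fun F hF => (Finset.mem_filter.1 hF).2)) (by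
        rw [add_right_comm]; exact h7)
    have hlarge : 2 ^ 20 * d ≤ Fintype.card V := by
      have := hp.large
      rw [hm]
      exact le_trans (Nat.mul_le_mul_right d (by norm_num)) this
    have hSa1 := hSa.2
    have hSb1 := hSb.2
    have hE := hex d hp.d1 V hlarge 𝓐 𝓑 D x hC hD hxD hSa.1 hSb.1 hSa1 hSb1
      (by rw [hm]; exact hxa') (by rw [hm]; exact hxb')
    unfold Goal at hgoal
    push Not at hgoal
    have h1 : ∀ z ∈ D, 2 * (Fintype.card V - 3).choose (d - 1) + 1 ≤ ov d 𝓐 ∅ + ov d 𝓑 (D.erase z) := by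
      intro z hz
      have := hgoal ∅ z (by simp)
      have h0 : symmDiff (symmDiff ∅ {z}) D = D.erase z := by
        rw [← Finset.bot_eq_empty, bot_symmDiff]
        exact symmDiff_singleton_erase D z hz
      rw [h0] at this
      exact this
    have h2 : ∀ z ∈ D, 2 * (Fintype.card V - 3).choose (d - 1) + 1 ≤ ov d 𝓐 (D.erase z) + ov d 𝓑 ∅ := by
      intro z hz
      have := hgoal (D.erase z) z (by
        rw [Nat.even_iff, Finset.card_erase_of_mem hz, hD])
      have h0 : symmDiff (symmDiff (D.erase z) {z}) D = ∅ := by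
        rw [symmDiff_erase_singleton D z hz, symmDiff_self, Finset.bot_eq_empty]
      rw [h0] at this
      exact this
    have h3 := Finset.sum_le_sum h1
    have h4 := Finset.sum_le_sum h2
    rw [Finset.sum_const, hD, Finset.sum_add_distrib, Finset.sum_const, hD] at h3
    rw [Finset.sum_const, hD, Finset.sum_add_distrib, Finset.sum_const, hD] at h4
    simp only [smul_eq_mul] at h3 h4
    omega
  · -- |D| = 5
    have hda : (((lev 𝓐 d).filter (fun F => Disjoint F D)).card : ℝ) ≤ tau * U d m := by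
      by_contra hc
      push Not at hc
      obtain ⟨W, W', -, -, h3, h4, -, -, h7⟩ := hsamp _ (lev 𝓑 d) ∅
        (fun _ => True) (fun _ => True) (Finset.filter_subset _ _) subset_rfl hc.le hlbT (by simp)
        (by rw [hEvT]; norm_num)
      have hne := nonempty_of_tau hp hc.le
      have := star_ineq_disj _ _ D h7 (lo_disjoint_of hne W _ (fun F hF => (Finset.mem_filter.1 hF).2)) h4
      omega
    have hdb : (((lev 𝓑 d).filter (fun F => Disjoint F D)).card : ℝ) ≤ tau * U d m := by
      by_contra hc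
      push Not at hc
      obtain ⟨W, W', -, -, h3, h4, -, -, h7⟩ := hsamp (lev 𝓐 d) _ ∅
        (fun _ => True) (fun _ => True) subset_rfl (Finset.filter_subset _ _) hlaT hc.le (by simp)
        (by rw [hEvT]; norm_num)
      have hne := nonempty_of_tau hp hc.le
      rw [symmDiff_comm (lo _ W) (lo _ W')] at h7
      have := star_ineq_disj _ _ D (by rw [add_right_comm]; exact h7)
        (lo_disjoint_of hne W' _ (fun F hF => (Finset.mem_filter.1 hF).2)) h3
      omega
    have hzz : ∀ z ∈ D, tau * U d m ≤ ((lev 𝓐 d).filter (fun F => z ∈ F)).card →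
        tau * U d m ≤ ((lev 𝓑 d).filter (fun F => z ∈ F)).card → False := by
      intro z hz h1 h2
      obtain ⟨W, W', -, -, h3, h4, h5, h6, h7⟩ := hsamp ((lev 𝓐 d).filter (fun F => z ∈ F))
        ((lev 𝓑 d).filter (fun F => z ∈ F)) {z}
        (fun _ => True) (fun _ => True) (Finset.filter_subset _ _) (Finset.filter_subset _ _) h1 h2
        (by simp) (by rw [hEvT]; norm_num)
      rw [Finset.disjoint_singleton_left] at h5 h6
      have e1 := lo_eq_singleton (nonempty_of_tau hp h1) (fun F hF => (Finset.mem_filter.1 hF).2) h5 h3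
      have e2 := lo_eq_singleton (nonempty_of_tau hp h2) (fun F hF => (Finset.mem_filter.1 hF).2) h6 h4
      rw [e1, e2, symmDiff_self, bot_symmDiff, hD] at h7
      simp at h7
    classical
    set R0 := D.filter (fun z => tau * U d m ≤ (((lev 𝓐 d).filter (fun F => z ∈ F)).card : ℝ)) with hR0
    set R1 := D.filter (fun z => tau * U d m ≤ (((lev 𝓑 d).filter (fun F => z ∈ F)).card : ℝ)) with hR1
    have hdisj : Disjoint R0 R1 := by
      rw [Finset.disjoint_left]
      intro z h0 h1
      rw [hR0, Finset.mem_filter] at h0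
      rw [hR1, Finset.mem_filter] at h1
      exact hzz z h0.1 h0.2 h1.2
    have hsum5 : R0.card + R1.card ≤ 5 := by
      rw [← Finset.card_union_of_disjoint hdisj, ← hD]
      exact Finset.card_le_card (Finset.union_subset (Finset.filter_subset _ _)
        (Finset.filter_subset _ _))
    have hcnt : ∀ 𝓔 : Finset (Finset V), (3 / 2 : ℝ) * U d m ≤ (lev 𝓔 d).card →
        (((lev 𝓔 d).filter (fun F => Disjoint F D)).card : ℝ) ≤ tau * U d m →
        2 ≤ (D.filter (fun z => tau * U d m ≤
          (((lev 𝓔 d).filter (fun F => z ∈ F)).card : ℝ))).card := by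
      intro 𝓔 h1 h2
      by_contra hc
      push Not at hc
      have h3 := cover_disj (d := d) 𝓔 ∅ D
      have h4 : (lev 𝓔 d).filter (fun F => Disjoint F ∅) = lev 𝓔 d :=
        Finset.filter_true_of_mem (fun F _ => Finset.disjoint_empty_right F)
      rw [h4, Finset.sdiff_empty] at h3
      have h5 : ((lev 𝓔 d).card : ℝ) ≤ ((lev 𝓔 d).filter (fun F => Disjoint F D)).card +
        ∑ z ∈ D, (((lev 𝓔 d).filter (fun F => z ∈ F ∧ Disjoint F ∅)).card : ℝ) := by
        exact_mod_cast h3
      have h6 : ∑ z ∈ D, (((lev 𝓔 d).filter (fun F => z ∈ F ∧ Disjoint F ∅)).card : ℝ) ≤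
          ∑ z ∈ D, (tau * U d m + (if tau * U d m ≤
            (((lev 𝓔 d).filter (fun F => z ∈ F)).card : ℝ) then (101 / 100) * U d m else 0)) := by
        apply Finset.sum_le_sum
        intro z hz
        have h7 : (((lev 𝓔 d).filter (fun F => z ∈ F ∧ Disjoint F ∅)).card : ℝ) ≤
            ((lev 𝓔 d).filter (fun F => z ∈ F)).card := by exact_mod_cast filt_le d 𝓔 z ∅
        have h0 : 0 ≤ tau * U d m := by rw [htau]; positivity
        split_ifs with h
        · have h8 := cnt1 (d := d) hm 𝓔 z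
          have h9 := (hlow d m q hp V hm).2
          have h10 : (((lev 𝓔 d).filter (fun F => z ∈ F)).card : ℝ) ≤ ((m - 1).choose (d - 1) : ℕ) := by
            exact_mod_cast h8
          linarith
        · push Not at h
          linarith
      rw [Finset.sum_add_distrib, ← Finset.sum_filter, Finset.sum_const, Finset.sum_const, hD,
        nsmul_eq_mul, nsmul_eq_mul] at h6
      have h11 : (((D.filter (fun z => tau * U d m ≤
          (((lev 𝓔 d).filter (fun F => z ∈ F)).card : ℝ))).card : ℕ) : ℝ) ≤ 1 := by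
        exact_mod_cast Nat.lt_succ_iff.1 hc
      have h12 : (((D.filter (fun z => tau * U d m ≤
          (((lev 𝓔 d).filter (fun F => z ∈ F)).card : ℝ))).card : ℕ) : ℝ) * (101 / 100 * U d m) ≤
          1 * (101 / 100 * U d m) := mul_le_mul_of_nonneg_right h11 (by linarith)
      push_cast at h6
      rw [htau] at h6 h2
      rw [htau] at h12
      linarith
    have hR0c : 2 ≤ R0.card := hcnt 𝓐 hla hda
    have hR1c : 2 ≤ R1.card := hcnt 𝓑 hlb hdb
    rcases (by omega : R1.card = 2 ∨ R0.card = 2) with h2 | h2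
    · refine hgoal (case5 hp hlow hm hC hSa hSb hD R1 (Finset.filter_subset _ _) h2 hda hdb ?_ ?_)
      · intro z hz
        by_contra hc
        push Not at hc
        have hz' := hz
        rw [hR1, Finset.mem_filter] at hz'
        exact hzz z hz'.1 hc.le hz'.2
      · intro z hz
        rw [Finset.mem_sdiff] at hz
        by_contra hc
        push Not at hc
        exact hz.2 (by rw [hR1, Finset.mem_filter]; exact ⟨hz.1, hc.le⟩)
    · refine hgoal' (case5 hp hlow hm hC.symm hSb hSa hD R0 (Finset.filter_subset _ _) h2 hdb hda ?_ ?_)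
      · intro z hz
        by_contra hc
        push Not at hc
        have hz' := hz
        rw [hR0, Finset.mem_filter] at hz'
        exact hzz z hz'.1 hz'.2 hc.le
      · intro z hz
        rw [Finset.mem_sdiff] at hz
        by_contra hc
        push Not at hc
        exact hz.2 (by rw [hR0, Finset.mem_filter]; exact ⟨hz.1, hc.le⟩)

end Pool.Agent.H30.Diam
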