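import Pool.Agent.H30.Diam.Stubs

/-! Project DIAM: elementary facts about the expectations. -/

set_option autoImplicit false

namespace Pool.Agent.H30.Diam.B32

open Finset

section
variable {α : Type} [DecidableEq α] {q : ℝ}

theorem EL_congr (l : List α) : ∀ (f g : Finset α → ℝ), (∀ W, W ⊆ l.toFinset → f W = g W) →
    EL q l f = EL q l g := by
  induction l with
  | nil => intro f g h; exact h ∅ (by simp)
  | cons a l ih =>
    intro f g h
    unfold EL
    rw [ih f g (fun W hW => h W (by rw [List.toFinset_cons]; exact hW.trans (subset_insert _ _))),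
      ih (fun W => f (insert a W)) (fun W => g (insert a W))
        (fun W hW => h _ (by rw [List.toFinset_cons]; exact insert_subset_insert _ hW))]

theorem EL_add (l : List α) : ∀ (f g : Finset α → ℝ),
    EL q l (fun W => f W + g W) = EL q l f + EL q l g := by
  induction l with
  | nil => intro f g; rfl
  | cons a l ih =>
    intro f g
    simp only [EL]
    rw [ih f g, ih (fun W => f (insert a W)) (fun W => g (insert a W))]
    ring

theorem EL_mul (l : List α) (c : ℝ) : ∀ (f : Finset α → ℝ),
    EL q l (fun W => c * f W) = c * EL q l f := by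
  induction l with
  | nil => intro f; rfl
  | cons a l ih =>
    intro f
    simp only [EL]
    rw [ih f, ih (fun W => f (insert a W))]
    ring

theorem EL_const (l : List α) (c : ℝ) : EL q l (fun _ => c) = c := by
  induction l with
  | nil => rfl
  | cons a l ih =>
    simp only [EL]
    rw [ih]
    ring

theorem EL_sum (l : List α) {ι : Type} (s : Finset ι) (f : ι → Finset α → ℝ) :
    EL q l (fun W => ∑ i ∈ s, f i W) = ∑ i ∈ s, EL q l (f i) := by
  classical
  induction s using Finset.induction_on with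
  | empty => simp only [sum_empty]; exact EL_const l 0
  | insert a s ha ih =>
    rw [sum_insert ha, ← ih, ← EL_add]
    congr 1
    funext W
    rw [sum_insert ha]

theorem EL_mono (h0 : 0 ≤ q) (h1 : q ≤ 1) (l : List α) : ∀ (f g : Finset α → ℝ),
    (∀ W, W ⊆ l.toFinset → f W ≤ g W) → EL q l f ≤ EL q l g := by
  induction l with
  | nil => intro f g h; exact h ∅ (by simp)
  | cons a l ih =>
    intro f g h
    simp only [EL]
    have e1 := ih f g (fun W hW => h W
      (by rw [List.toFinset_cons]; exact hW.trans (subset_insert _ _)))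
    have e2 := ih (fun W => f (insert a W)) (fun W => g (insert a W))
        (fun W hW => h _ (by rw [List.toFinset_cons]; exact insert_subset_insert _ hW))
    have := mul_le_mul_of_nonneg_left e1 (sub_nonneg.mpr h1)
    have := mul_le_mul_of_nonneg_left e2 h0
    linarith

theorem DL_add (l : List α) : ∀ (f g : Finset α → Finset α → ℝ),
    DL q l (fun W W' => f W W' + g W W') = DL q l f + DL q l g := by
  induction l with
  | nil => intro f g; rfl
  | cons a l ih =>
    intro f g
    simp only [DL]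
    rw [ih f g, ih (fun W W' => f (insert a W) W') (fun W W' => g (insert a W) W'),
      ih (fun W W' => f W (insert a W')) (fun W W' => g W (insert a W'))]
    ring

theorem DL_mul (l : List α) (c : ℝ) : ∀ (f : Finset α → Finset α → ℝ),
    DL q l (fun W W' => c * f W W') = c * DL q l f := by
  induction l with
  | nil => intro f; rfl
  | cons a l ih =>
    intro f
    simp only [DL]
    rw [ih f, ih (fun W W' => f (insert a W) W'), ih (fun W W' => f W (insert a W'))]
    ring

theorem DL_left (l : List α) : ∀ (f : Finset α → ℝ),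
    DL q l (fun W _ => f W) = EL q l f := by
  induction l with
  | nil => intro f; rfl
  | cons a l ih =>
    intro f
    simp only [DL, EL]
    rw [ih f, ih (fun W => f (insert a W))]
    ring

theorem DL_right (l : List α) : ∀ (f : Finset α → ℝ),
    DL q l (fun _ W' => f W') = EL q l f := by
  induction l with
  | nil => intro f; rfl
  | cons a l ih =>
    intro f
    simp only [DL, EL]
    rw [ih f, ih (fun W => f (insert a W))]
    ring

theorem DL_mono (h0 : 0 ≤ q) (h1 : 2 * q ≤ 1) (l : List α) (hl : l.Nodup) :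
    ∀ (f g : Finset α → Finset α → ℝ),
    (∀ W W', W ⊆ l.toFinset → W' ⊆ l.toFinset → Disjoint W W' → f W W' ≤ g W W') →
    DL q l f ≤ DL q l g := by
  induction l with
  | nil => intro f g h; exact h ∅ ∅ (by simp) (by simp) (by simp)
  | cons a l ih =>
    intro f g h
    rw [List.nodup_cons] at hl
    have ha : a ∉ l.toFinset := by simpa using hl.1
    simp only [DL]
    have sub1 : ∀ W : Finset α, W ⊆ l.toFinset → W ⊆ (a :: l).toFinset := fun W hW => by
      rw [List.toFinset_cons]; exact hW.trans (subset_insert _ _)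
    have sub2 : ∀ W : Finset α, W ⊆ l.toFinset → insert a W ⊆ (a :: l).toFinset := fun W hW => by
      rw [List.toFinset_cons]; exact insert_subset_insert _ hW
    have e1 := ih hl.2 f g (fun W W' hW hW' hd => h W W' (sub1 _ hW) (sub1 _ hW') hd)
    have e2 := ih hl.2 (fun W W' => f (insert a W) W') (fun W W' => g (insert a W) W')
        (fun W W' hW hW' hd => h _ _ (sub2 _ hW) (sub1 _ hW') (by
          rw [disjoint_insert_left]; exact ⟨fun h => ha (hW' h), hd⟩))
    have e3 := ih hl.2 (fun W W' => f W (insert a W')) (fun W W' => g W (insert a W'))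
        (fun W W' hW hW' hd => h _ _ (sub1 _ hW) (sub2 _ hW') (by
          rw [disjoint_insert_right]; exact ⟨fun h => ha (hW h), hd⟩))
    have := mul_le_mul_of_nonneg_left e1 (sub_nonneg.mpr h1)
    have := mul_le_mul_of_nonneg_left e2 h0
    have := mul_le_mul_of_nonneg_left e3 h0
    linarith

end

section
variable {V : Type} [Fintype V] [DecidableEq V] {q : ℝ}

theorem Ev_add (f g : Finset V → ℝ) : Ev q (fun W => f W + g W) = Ev q f + Ev q g :=
  EL_add _ f g

theorem Ev_mul (c : ℝ) (f : Finset V → ℝ) : Ev q (fun W => c * f W) = c * Ev q f :=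
  EL_mul _ c f

theorem Ev_const (c : ℝ) : Ev q (fun _ : Finset V => c) = c := EL_const _ c

theorem Ev_sum {ι : Type} (s : Finset ι) (f : ι → Finset V → ℝ) :
    Ev q (fun W => ∑ i ∈ s, f i W) = ∑ i ∈ s, Ev q (f i) := EL_sum _ s f

theorem Ev_mono (h0 : 0 ≤ q) (h1 : q ≤ 1) {f g : Finset V → ℝ} (h : ∀ W, f W ≤ g W) :
    Ev q f ≤ Ev q g := EL_mono h0 h1 _ f g (fun W _ => h W)

theorem Dv_add (f g : Finset V → Finset V → ℝ) :
    Dv q (fun W W' => f W W' + g W W') = Dv q f + Dv q g := DL_add _ f g

theorem Dv_mul (c : ℝ) (f : Finset V → Finset V → ℝ) :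
    Dv q (fun W W' => c * f W W') = c * Dv q f := DL_mul _ c f

theorem Dv_left (f : Finset V → ℝ) : Dv q (fun W _ => f W) = Ev q f := DL_left _ f

theorem Dv_right (f : Finset V → ℝ) : Dv q (fun _ W' => f W') = Ev q f := DL_right _ f

theorem Dv_mono (h0 : 0 ≤ q) (h1 : 2 * q ≤ 1) {f g : Finset V → Finset V → ℝ}
    (h : ∀ W W', Disjoint W W' → f W W' ≤ g W W') : Dv q f ≤ Dv q g :=
  DL_mono h0 h1 _ (Finset.nodup_toList _) f g (fun W W' _ _ hd => h W W' hd)

theorem Ev_exists (h0 : 0 ≤ q) (h1 : q ≤ 1) {f : Finset V → ℝ} {c : ℝ} (h : c ≤ Ev q f) :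
    ∃ W, c ≤ f W := by
  by_contra hc
  push Not at hc
  have hfin : (univ : Finset (Finset V)).Nonempty := ⟨∅, mem_univ _⟩
  obtain ⟨W₀, -, hW⟩ := Finset.exists_max_image univ f hfin
  have h2 : Ev q f ≤ Ev q (fun _ : Finset V => f W₀) :=
    Ev_mono h0 h1 (fun W => hW W (mem_univ _))
  rw [Ev_const] at h2
  have := hc W₀
  linarith

theorem ind_nonneg (p : Prop) : 0 ≤ ind p := by
  unfold ind; split_ifs <;> norm_num

theorem ind_le_one (p : Prop) : ind p ≤ 1 := by
  unfold ind; split_ifs <;> norm_num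

theorem ind_pos {p : Prop} (h : p) : ind p = 1 := by
  unfold ind; rw [if_pos h]

theorem ind_neg {p : Prop} (h : ¬ p) : ind p = 0 := by
  unfold ind; rw [if_neg h]

theorem ind_not (p : Prop) : ind (¬ p) = 1 - ind p := by
  by_cases h : p
  · rw [ind_pos h, ind_neg (not_not.mpr h)]; norm_num
  · rw [ind_neg h, ind_pos h]; norm_num

theorem ind_mono {p r : Prop} (h : p → r) : ind p ≤ ind r := by
  by_cases hp : p
  · rw [ind_pos hp, ind_pos (h hp)]
  · rw [ind_neg hp]; exact ind_nonneg _

theorem card_eq_sum_ind (A : Finset V) : (A.card : ℝ) = ∑ z : V, ind (z ∈ A) := by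
  rw [Finset.card_eq_sum_ones]
  push_cast
  rw [← Finset.sum_filter_add_sum_filter_not univ (fun z => z ∈ A) (fun z => ind (z ∈ A))]
  have h1 : ∑ z ∈ univ.filter (fun z => z ∈ A), ind (z ∈ A) = ∑ z ∈ A, (1 : ℝ) := by
    have : univ.filter (fun z => z ∈ A) = A := by ext; simp
    rw [this]
    exact Finset.sum_congr rfl (fun z hz => ind_pos hz)
  have h2 : ∑ z ∈ univ.filter (fun z => ¬ z ∈ A), ind (z ∈ A) = 0 :=
    Finset.sum_eq_zero (fun z hz => ind_neg (mem_filter.mp hz).2)
  rw [h1, h2, add_zero]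

theorem card_inter_eq_sum_ind (A Y : Finset V) :
    ((A ∩ Y).card : ℝ) = ∑ z ∈ Y, ind (z ∈ A) := by
  rw [Finset.card_eq_sum_ones]
  push_cast
  rw [← Finset.sum_filter_add_sum_filter_not Y (fun z => z ∈ A) (fun z => ind (z ∈ A))]
  have h1 : ∑ z ∈ Y.filter (fun z => z ∈ A), ind (z ∈ A) = ∑ z ∈ A ∩ Y, (1 : ℝ) := by
    have : Y.filter (fun z => z ∈ A) = A ∩ Y := by ext; simp [and_comm]
    rw [this]
    exact Finset.sum_congr rfl (fun z hz => ind_pos (mem_inter.mp hz).1)
  have h2 : ∑ z ∈ Y.filter (fun z => ¬ z ∈ A), ind (z ∈ A) = 0 :=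
    Finset.sum_eq_zero (fun z hz => ind_neg (mem_filter.mp hz).2)
  rw [h1, h2, add_zero]

/-- Markov -/
theorem markov (h0 : 0 ≤ q) (h1 : q ≤ 1) (f : Finset V → ℕ) (k : ℕ) :
    (k + 1 : ℝ) * Ev q (fun W => ind (k < f W)) ≤ Ev q (fun W => (f W : ℝ)) := by
  rw [← Ev_mul]
  apply Ev_mono h0 h1
  intro W
  by_cases h : k < f W
  · rw [ind_pos h, mul_one]
    exact_mod_cast h
  · rw [ind_neg h, mul_zero]
    positivity

end

section
variable {V : Type} [DecidableEq V]

theorem card_symmDiff (F G : Finset V) :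
    (symmDiff F G).card + 2 * (F ∩ G).card = F.card + G.card := by
  have h1 : (symmDiff F G).card = (F \ G).card + (G \ F).card := by
    have : symmDiff F G = (F \ G) ∪ (G \ F) := rfl
    rw [this, card_union_of_disjoint]
    exact Finset.disjoint_left.mpr (fun x hx hx' =>
      (mem_sdiff.mp hx').2 (mem_sdiff.mp hx).1)
  have h2 := Finset.card_sdiff_add_card_inter F G
  have h3 := Finset.card_sdiff_add_card_inter G F
  rw [inter_comm G F] at h3
  omega

/-- the intersection of two members is covered by the leftovers -/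
theorem inter_cover {B C : Finset (Finset V)} {W W' : Finset V} (hd : Disjoint W W') :
    (wit B W ∩ wit C W').card ≤
      (lo B W ∩ lo C W').card + (lo B W ∩ W').card + (lo C W' ∩ W).card := by
  have hsub : wit B W ∩ wit C W' ⊆ ((lo B W ∩ lo C W') ∪ (lo B W ∩ W')) ∪ (lo C W' ∩ W) := by
    intro x hx
    rw [mem_inter] at hx
    simp only [mem_union, mem_inter, lo, mem_sdiff]
    by_cases h1 : x ∈ W
    · right
      exact ⟨⟨hx.2, fun h2 => (Finset.disjoint_left.mp hd) h1 h2⟩, h1⟩
    · left
      by_cases h2 : x ∈ W'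
      · right; exact ⟨⟨hx.1, h1⟩, h2⟩
      · left; exact ⟨⟨hx.1, h1⟩, hx.2, h2⟩
  calc (wit B W ∩ wit C W').card ≤ _ := card_le_card hsub
    _ ≤ _ := (card_union_le _ _).trans (Nat.add_le_add_right (card_union_le _ _) _)

theorem lev_mem {𝓔 : Finset (Finset V)} {k : ℕ} {F : Finset V} :
    F ∈ lev 𝓔 k ↔ F ∈ 𝓔 ∧ F.card = k := by
  unfold lev; rw [mem_filter]

theorem fam_inter {d : ℕ} {𝓔 : Finset (Finset V)} (h : Fam d 𝓔) {i j : ℕ} {F G : Finset V}
    (hF : F ∈ lev 𝓔 (d + 2 * i)) (hG : G ∈ lev 𝓔 (d + 2 * j)) : i + j ≤ (F ∩ G).card := by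
  rw [lev_mem] at hF hG
  have h1 := h.diam F hF.1 G hG.1
  have h2 := card_symmDiff F G
  omega

theorem sh_sh (X Y : Finset V) (𝓔 : Finset (Finset V)) :
    sh Y (sh X 𝓔) = sh (symmDiff X Y) 𝓔 := by
  unfold sh
  rw [image_image]
  congr 1
  funext F
  simp only [Function.comp]
  rw [symmDiff_assoc]

theorem sh_inj (X : Finset V) : Function.Injective (fun F : Finset V => symmDiff F X) :=
  symmDiff_left_injective X

theorem mem_sh {X F : Finset V} {𝓔 : Finset (Finset V)} : F ∈ sh X 𝓔 ↔ symmDiff F X ∈ 𝓔 := by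
  unfold sh
  rw [mem_image]
  constructor
  · rintro ⟨G, hG, rfl⟩
    rwa [symmDiff_symmDiff_cancel_right]
  · intro h
    exact ⟨_, h, symmDiff_symmDiff_cancel_right _ _⟩

theorem fam_sh {d : ℕ} {𝓔 : Finset (Finset V)} (h : Fam d 𝓔) {X : Finset V} (hX : Even X.card) :
    Fam d (sh X 𝓔) := by
  constructor
  · intro F hF G hG
    rw [mem_sh] at hF hG
    have := h.diam _ hF _ hG
    have e : symmDiff (symmDiff F X) (symmDiff G X) = symmDiff F G := by
      rw [symmDiff_symmDiff_symmDiff_comm, symmDiff_self, symmDiff_bot]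
    rwa [e] at this
  · intro F hF
    rw [mem_sh] at hF
    have h1 := h.par _ hF
    have h2 := card_symmDiff F X
    obtain ⟨k, hk⟩ := hX
    omega

end

end Pool.Agent.H30.Diam.B32
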