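import Pool.Agent.H30.Diam.EvenAll
import Pool.Agent.H30.Diam.SSMain
import Pool.Agent.H12.Diam.KK
import Pool.Agent.H12.Diam.KS
import Pool.Agent.H13.Diam.ExactB
import Pool.Agent.H29.Diam.Mfin
import Pool.Agent.H71.Diam.Samp
import Pool.Agent.H82.Diam.Low
import Pool.Agent.H82.Diam.CommonPt
import Pool.Agent.H82.Diam.FinalOdd

/-! Assembly of the odd case. -/

namespace Pool.Agent.H30.Diam

theorem t_samp : S_samp := Pool.Agent.H71.Diam.samp Pool.Agent.H71.Diam.pairD t_tail
theorem t_low : S_low := Pool.Agent.H82.Diam.low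
theorem t_commonpt : S_commonpt := Pool.Agent.H82.Diam.commonpt t_tail Mix.common Cross.cross
theorem t_exactB : S_exactB := Pool.Agent.H13.Diam.exactB
theorem t_ss : S_ss := ss t_samp t_low t_commonpt t_exactB
theorem t_ks : S_ks := Pool.Agent.H12.Diam.ks t_tail t_samp t_low Pool.Agent.H29.Diam.ksfin
theorem t_kkcase : S_kkcase :=
  Pool.Agent.H12.Diam.kkcase t_tail t_samp Pool.Agent.H29.Diam.mfin t_exact
theorem t_dich : S_dich := Pool.Agent.H82.Diam.dich t_stage1 t_struct
theorem t_odd : S_odd := Pool.Agent.H82.Diam.odd t_dich t_ss t_ks t_kkcase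
theorem t_finalodd : S_finalodd := Pool.Agent.H82.Diam.finalodd t_odd

end Pool.Agent.H30.Diam
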