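import Mathlib

/-! MP_6327e0_co (diametral overflow).  Definitions for the witness method. -/

namespace Pool.Agent.H30.Diam

open Finset

/-! ### The product measure on a list of coordinates -/

section lists
variable {α : Type} [DecidableEq α]

/-- expectation of `f W`, `W` the `q`-random subset of the coordinates in the list. -/
noncomputable def EL (q : ℝ) : List α → (Finset α → ℝ) → ℝ
  | [], f => f ∅
  | a :: l, f => (1 - q) * EL q l f + q * EL q l (fun W => f (insert a W))

/-- expectation of `f W W'` where `(W, W')` is a random pair of DISJOINT sets; each coordinate is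
in `W` with probability `q`, in `W'` with probability `q`, in none with probability `1 - 2q`. -/
noncomputable def DL (q : ℝ) : List α → (Finset α → Finset α → ℝ) → ℝ
  | [], f => f ∅ ∅
  | a :: l, f => (1 - 2 * q) * DL q l f + q * DL q l (fun W W' => f (insert a W) W')
      + q * DL q l (fun W W' => f W (insert a W'))

end lists

section types
variable {V : Type} [Fintype V] [DecidableEq V]

/-- expectation over a `q`-random subset of the finite type `V`. -/
noncomputable def Ev (q : ℝ) (f : Finset V → ℝ) : ℝ := EL q (Finset.univ : Finset V).toList f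

/-- expectation over a random disjoint pair of subsets of `V`. -/
noncomputable def Dv (q : ℝ) (f : Finset V → Finset V → ℝ) : ℝ :=
  DL q (Finset.univ : Finset V).toList f

end types

open Classical in
/-- indicator of a proposition. -/
noncomputable def ind (p : Prop) : ℝ := if p then 1 else 0

section wit
variable {V : Type} [DecidableEq V]

open Classical in
/-- a member of `B` with `|F \ W|` minimal. -/
noncomputable def wit (B : Finset (Finset V)) (W : Finset V) : Finset V :=
  if h : B.Nonempty then (B.exists_min_image (fun F => (F \ W).card) h).choose else ∅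

/-- the leftover `F \ W` of the witness. -/
noncomputable def lo (B : Finset (Finset V)) (W : Finset V) : Finset V := wit B W \ W

theorem wit_mem {B : Finset (Finset V)} (h : B.Nonempty) (W : Finset V) : wit B W ∈ B := by
  unfold wit; rw [dif_pos h]
  exact (B.exists_min_image (fun F => (F \ W).card) h).choose_spec.1

theorem lo_min {B : Finset (Finset V)} (W : Finset V) {F : Finset V} (hF : F ∈ B) :
    (lo B W).card ≤ (F \ W).card := by
  have h : B.Nonempty := ⟨F, hF⟩
  unfold lo wit; rw [dif_pos h]
  exact (B.exists_min_image (fun F => (F \ W).card) h).choose_spec.2 F hF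

theorem lo_disj (B : Finset (Finset V)) (W : Finset V) : Disjoint (lo B W) W :=
  Finset.sdiff_disjoint

theorem lo_sub (B : Finset (Finset V)) (W : Finset V) : lo B W ⊆ wit B W := Finset.sdiff_subset

/-- the sets of size `k` in `𝓔`. -/
def lev (𝓔 : Finset (Finset V)) (k : ℕ) : Finset (Finset V) := 𝓔.filter (fun F => F.card = k)

/-- re-centring at `X`. -/
def sh (X : Finset V) (𝓔 : Finset (Finset V)) : Finset (Finset V) := 𝓔.image (fun F => symmDiff F X)

/-- a parity family: all sizes have the parity of `d` and all distances are at most `2d`. -/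
structure Fam (d : ℕ) (𝓔 : Finset (Finset V)) : Prop where
  diam : ∀ F ∈ 𝓔, ∀ G ∈ 𝓔, (symmDiff F G).card ≤ 2 * d
  par : ∀ F ∈ 𝓔, F.card % 2 = d % 2

end wit

/-- the unit `C(m-3, d-1)`. -/
noncomputable def U (d m : ℕ) : ℝ := ((m - 3).choose (d - 1) : ℝ)

/-- thresholds for the levels. -/
noncomputable def eps (i : ℕ) : ℝ := (1 / 2 ^ 9) * (1 / 4096) ^ i

/-- threshold for large subfamilies. -/
noncomputable def tau : ℝ := 1 / 2 ^ 31

/-- threshold for the dichotomy. -/
noncomputable def del : ℝ := 1 / 2 ^ 23

/-- the parameters: `q` is tiny and `q ^ 1601 * m = 40 d`. -/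
structure Par (d m : ℕ) (q : ℝ) : Prop where
  d1 : 1 ≤ d
  q0 : 0 < q
  q1 : q ≤ 1 / 10 ^ 15
  hq : q ^ 1601 * m = 40 * d

/-- all levels `d + 2i` with `i > I` are exponentially small. -/
def Good {V : Type} [Fintype V] [DecidableEq V] (d : ℕ) (𝓔 : Finset (Finset V)) (I : ℕ) : Prop :=
  ∀ i, I < i → ((lev 𝓔 (d + 2 * i)).card : ℝ) ≤ eps i * U d (Fintype.card V)

end Pool.Agent.H30.Diam
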