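import Pool.Agent.H30.Diam.Basic32

/-! DIAM-9 and DIAM-10. -/

set_option autoImplicit false
set_option linter.unusedSectionVars false

namespace Pool.Agent.H30.Diam.B32

open Finset

section
variable {V : Type} [Fintype V] [DecidableEq V]

open Classical in
/-- the leftover, cut off at `w` -/
noncomputable def Lt (G : Finset (Finset V)) (w : ℕ) (W : Finset V) : Finset V :=
  if (lo G W).card ≤ w then lo G W else ∅

theorem Lt_card (G : Finset (Finset V)) (w : ℕ) (W : Finset V) : (Lt G w W).card ≤ w := by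
  unfold Lt; split_ifs with h
  · exact h
  · simp

theorem Lt_disj (G : Finset (Finset V)) (w : ℕ) (W : Finset V) : Disjoint (Lt G w W) W := by
  unfold Lt; split_ifs with h
  · exact lo_disj G W
  · simp

theorem par_q2 {d m : ℕ} {q : ℝ} (h : Par d m q) : q ≤ 1 / 4 := h.q1.trans (by norm_num)

/-- the common part -/
theorem find_core (hT : S_tail) (hX : S_cross) (hC : S_common) {d m : ℕ} {q : ℝ} (hP : Par d m q)
    (hV : Fintype.card V = m) {𝓔 : Finset (Finset V)} (hE : Fam d 𝓔) {t : ℕ}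
    {G : Finset (Finset V)} (hG : G ⊆ lev 𝓔 (d + 2 * t)) (ht : 1 ≤ t) (htd : t ≤ d)
    (hbig : eps (t + 1) / (2 * (t + 1) + 1) * U d m ≤ G.card) (w : ℕ)
    (hw : w = 2 * t + 1 + (2 * t + 1) / 200) :
    Ev q (fun W : Finset V => ind (w < (lo G W).card)) ≤ q ∧
    ∃ Y : Finset V, Y.card ≤ w ∧ 2 * (t : ℝ) - (4 * t * q + 6 * q * w) ≤
      ∑ z ∈ Y, Ev q (fun W => ind (z ∈ Lt G w W)) := by
  have hq0 := hP.q0
  have hq4 := par_q2 hP
  obtain ⟨hne, htail⟩ := hT d m q hP V hV (t + 1) t G (by omega)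
    (fun F hF => (lev_mem.mp (hG hF)).2) (by push_cast; exact_mod_cast hbig)
  have hw' : 2 * t + 1 + (t + 1 + t) / 200 = w := by
    rw [hw]
    congr 2
    omega
  rw [hw'] at htail
  refine ⟨htail, ?_⟩
  -- the lower bound
  have h1 : (2 * t : ℝ) ≤ Dv q (fun W W' => ((Lt G w W ∩ Lt G w W').card : ℝ)) +
      4 * t * q + 4 * q * w := by
    have hcross := hX V q hq0 hq4 (Lt G w) w (Lt_disj G w) (Lt_card G w)
    have hmono : Dv q (fun (_ : Finset V) (_ : Finset V) => (2 * t : ℝ)) ≤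
        Dv q (fun W W' => (((((Lt G w W ∩ Lt G w W').card : ℝ) + ((Lt G w W ∩ W').card : ℝ)) +
          ((Lt G w W' ∩ W).card : ℝ)) + (2 * t) * ind (w < (lo G W).card)) +
            (2 * t) * ind (w < (lo G W').card)) := by
      apply Dv_mono hq0.le (by linarith)
      intro W W' hd
      by_cases f1 : w < (lo G W).card
      · rw [ind_pos f1]
        have := ind_nonneg (w < (lo G W').card)
        have : (0:ℝ) ≤ (2 * t) * ind (w < (lo G W').card) := by positivity
        have h2 : (0:ℝ) ≤ ((Lt G w W ∩ Lt G w W').card : ℝ) + ((Lt G w W ∩ W').card : ℝ) +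
          ((Lt G w W' ∩ W).card : ℝ) := by positivity
        linarith
      · by_cases f2 : w < (lo G W').card
        · rw [ind_pos f2, ind_neg f1]
          have h2 : (0:ℝ) ≤ ((Lt G w W ∩ Lt G w W').card : ℝ) + ((Lt G w W ∩ W').card : ℝ) +
            ((Lt G w W' ∩ W).card : ℝ) := by positivity
          linarith
        · rw [ind_neg f1, ind_neg f2]
          have e1 : Lt G w W = lo G W := by unfold Lt; rw [if_pos (not_lt.mp f1)]
          have e2 : Lt G w W' = lo G W' := by unfold Lt; rw [if_pos (not_lt.mp f2)]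
          rw [e1, e2]
          have h3 := fam_inter hE (hG (wit_mem hne W)) (hG (wit_mem hne W'))
          have h4 := inter_cover (B := G) (C := G) hd
          have h5 : 2 * t ≤ (lo G W ∩ lo G W').card + (lo G W ∩ W').card + (lo G W' ∩ W).card := by
            omega
          have h6 : (2 * t : ℝ) ≤ ((lo G W ∩ lo G W').card : ℝ) + ((lo G W ∩ W').card : ℝ) +
            ((lo G W' ∩ W).card : ℝ) := by exact_mod_cast h5
          linarith
    have hconst : Dv q (fun (_ : Finset V) (_ : Finset V) => (2 * t : ℝ)) = 2 * t := by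
      rw [Dv_left (fun _ => (2 * t : ℝ)), Ev_const]
    rw [hconst, Dv_add, Dv_add, Dv_add, Dv_add, Dv_mul, Dv_mul,
      Dv_left (fun W => ind (w < (lo G W).card)), Dv_right (fun W => ind (w < (lo G W).card))]
      at hmono
    have ht0 : (0 : ℝ) ≤ 2 * t := by positivity
    have := mul_le_mul_of_nonneg_left htail ht0
    linarith [hcross.1, hcross.2]
  have h2 := hC V q hq0 hq4 (Lt G w) (Lt G w) w w (Lt_card G w) (Lt_card G w)
  have h3 : (2 * (t : ℝ) - (4 * t * q + 6 * q * w)) ≤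
      ∑ z : V, Ev q (fun W => ind (z ∈ Lt G w W)) * Ev q (fun W => ind (z ∈ Lt G w W)) := by
    linarith
  -- average
  have h4 : ∑ z : V, Ev q (fun W => ind (z ∈ Lt G w W)) * Ev q (fun W => ind (z ∈ Lt G w W)) =
      Ev q (fun W => ∑ z ∈ Lt G w W, Ev q (fun W => ind (z ∈ Lt G w W))) := by
    have e : ∀ W : Finset V, ∑ z ∈ Lt G w W, Ev q (fun W => ind (z ∈ Lt G w W)) =
        ∑ z : V, Ev q (fun W => ind (z ∈ Lt G w W)) * ind (z ∈ Lt G w W) := by
      intro W
      rw [← Finset.sum_subset (subset_univ (Lt G w W))]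
      · exact Finset.sum_congr rfl (fun z hz => by rw [ind_pos hz, mul_one])
      · intro z _ hz
        rw [ind_neg hz, mul_zero]
    simp_rw [e]
    rw [Ev_sum]
    apply Finset.sum_congr rfl
    intro z _
    rw [Ev_mul]
  rw [h4] at h3
  obtain ⟨W₀, hW₀⟩ := Ev_exists hq0.le (by linarith) h3
  exact ⟨Lt G w W₀, Lt_card G w W₀, hW₀⟩

end

theorem findS (hT : S_tail) (hX : S_cross) (hC : S_common) : S_findS := by
  intro d m q hP V _ _ hV 𝓔 hE t G hG ht ht3 htd hbig
  have hq0 := hP.q0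
  have hq4 := par_q2 hP
  obtain ⟨hfail, Y, hY, hsum⟩ := find_core hT hX hC hP hV hE hG ht htd hbig
    (2 * t + 1 + (2 * t + 1) / 200) rfl
  have hw : 2 * t + 1 + (2 * t + 1) / 200 = 2 * t + 1 := by omega
  rw [hw] at hY hsum hfail
  -- probability that the intersection with Y has 2t elements
  have h1 : (∑ z ∈ Y, Ev q (fun W => ind (z ∈ Lt G (2 * t + 1) W))) ≤
      (2 * t - 1) + 2 * Ev q (fun W => ind (2 * t ≤ (Lt G (2 * t + 1) W ∩ Y).card)) := by
    rw [← Ev_sum]
    have : Ev q (fun W => ∑ z ∈ Y, ind (z ∈ Lt G (2 * t + 1) W)) ≤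
        Ev q (fun W => (2 * t - 1 : ℝ) +
          2 * ind (2 * t ≤ (Lt G (2 * t + 1) W ∩ Y).card)) := by
      apply Ev_mono hq0.le (by linarith)
      intro W
      rw [← card_inter_eq_sum_ind]
      by_cases hc : 2 * t ≤ (Lt G (2 * t + 1) W ∩ Y).card
      · rw [ind_pos hc]
        have h2 : (Lt G (2 * t + 1) W ∩ Y).card ≤ 2 * t + 1 :=
          (card_le_card inter_subset_right).trans hY
        have h3 : ((Lt G (2 * t + 1) W ∩ Y).card : ℝ) ≤ 2 * t + 1 := by exact_mod_cast h2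
        linarith
      · rw [ind_neg hc]
        have h2 : (Lt G (2 * t + 1) W ∩ Y).card + 1 ≤ 2 * t := by omega
        have h3 : ((Lt G (2 * t + 1) W ∩ Y).card : ℝ) + 1 ≤ 2 * t := by exact_mod_cast h2
        linarith
    rw [Ev_add, Ev_const, Ev_mul] at this
    exact this
  have hts : 4 * (t : ℝ) * q + 6 * q * ((2 * t + 1 : ℕ) : ℝ) ≤ 1 / 10 := by
    have h3 : (t : ℝ) ≤ 3 := by exact_mod_cast ht3
    have hq1 := hP.q1
    push_cast
    have : (t : ℝ) * q ≤ 3 * q := mul_le_mul_of_nonneg_right h3 hq0.le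
    nlinarith
  have h2 : (9 / 20 : ℝ) ≤ Ev q (fun W => ind (2 * t ≤ (Lt G (2 * t + 1) W ∩ Y).card)) := by
    linarith
  -- pigeonhole
  have h3 : Ev q (fun W => ind (2 * t ≤ (Lt G (2 * t + 1) W ∩ Y).card)) ≤
      ∑ X ∈ Y.powersetCard (2 * t), Ev q (fun W => ind (X ⊆ Lt G (2 * t + 1) W)) := by
    rw [← Ev_sum]
    apply Ev_mono hq0.le (by linarith)
    intro W
    by_cases hc : 2 * t ≤ (Lt G (2 * t + 1) W ∩ Y).card
    · rw [ind_pos hc]
      obtain ⟨X, hXs, hXc⟩ := Finset.exists_subset_card_eq hc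
      have hmem : X ∈ Y.powersetCard (2 * t) :=
        mem_powersetCard.mpr ⟨hXs.trans inter_subset_right, hXc⟩
      have := Finset.single_le_sum (f := fun X => ind (X ⊆ Lt G (2 * t + 1) W))
        (fun X _ => ind_nonneg _) hmem
      rw [ind_pos (hXs.trans inter_subset_left)] at this
      exact this
    · rw [ind_neg hc]
      exact Finset.sum_nonneg (fun X _ => ind_nonneg _)
  by_contra hcon
  push Not at hcon
  have h4 : ∑ X ∈ Y.powersetCard (2 * t), Ev q (fun W => ind (X ⊆ Lt G (2 * t + 1) W)) ≤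
      ∑ X ∈ Y.powersetCard (2 * t), (1 / 20 : ℝ) := by
    apply Finset.sum_le_sum
    intro X hX
    have hXc := (mem_powersetCard.mp hX).2
    refine le_trans ?_ (hcon X hXc).le
    apply Ev_mono hq0.le (by linarith)
    intro W
    apply ind_mono
    intro hsub
    have hne : X.Nonempty := by
      rw [← card_pos]; omega
    obtain ⟨x, hx⟩ := hne
    by_cases hc : (lo G W).card ≤ 2 * t + 1
    · have e : Lt G (2 * t + 1) W = lo G W := by unfold Lt; rw [if_pos hc]
      rw [e] at hsub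
      exact ⟨hsub, hc⟩
    · exfalso
      have e : Lt G (2 * t + 1) W = ∅ := by unfold Lt; rw [if_neg hc]
      rw [e] at hsub
      exact absurd (hsub hx) (notMem_empty x)
  rw [sum_const, card_powersetCard, nsmul_eq_mul] at h4
  have h5 : Y.card.choose (2 * t) ≤ 7 := by
    have : Y.card.choose (2 * t) ≤ (2 * t + 1).choose (2 * t) := Nat.choose_le_choose _ hY
    have e : (2 * t + 1).choose (2 * t) = 2 * t + 1 := by
      rw [Nat.choose_symm_of_eq_add (show 2 * t + 1 = 2 * t + 1 from rfl), Nat.choose_one_right]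
    omega
  have h6 : (Y.card.choose (2 * t) : ℝ) ≤ 7 := by exact_mod_cast h5
  linarith

theorem findL (hT : S_tail) (hX : S_cross) (hC : S_common) : S_findL := by
  intro d m q hP V _ _ hV 𝓔 hE t G hG ht4 htd hbig
  have hq0 := hP.q0
  have hq4 := par_q2 hP
  obtain ⟨w, hw⟩ : ∃ w, w = 2 * t + 1 + (2 * t + 1) / 200 := ⟨_, rfl⟩
  obtain ⟨hfail, Y, hY, hsum⟩ := find_core hT hX hC hP hV hE hG (by omega) htd hbig w hw
  obtain ⟨hne, -⟩ := hT d m q hP V hV (t + 1) t G (by omega)
    (fun F hF => (lev_mem.mp (hG hF)).2) (by push_cast; exact_mod_cast hbig)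
  obtain ⟨F₀, hF₀⟩ := hne
  have hF₀c := (lev_mem.mp (hG hF₀)).2
  have hm : 2 * t ≤ Fintype.card V := by
    have := card_le_univ F₀
    omega
  -- choose X
  set π : V → ℝ := fun z => Ev q (fun W => ind (z ∈ Lt G w W)) with hπ
  have hπ1 : ∀ z, π z ≤ 1 := by
    intro z
    have : Ev q (fun W => ind (z ∈ Lt G w W)) ≤ Ev q (fun _ : Finset V => (1 : ℝ)) :=
      Ev_mono hq0.le (by linarith) (fun W => ind_le_one _)
    rwa [Ev_const] at this
  have hπ0 : ∀ z, 0 ≤ π z := by
    intro z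
    have : Ev q (fun _ : Finset V => (0 : ℝ)) ≤ Ev q (fun W => ind (z ∈ Lt G w W)) :=
      Ev_mono hq0.le (by linarith) (fun W => ind_nonneg _)
    rwa [Ev_const] at this
  have hXex : ∃ X : Finset V, X.card = 2 * t ∧
      ∑ z ∈ Y, π z ≤ ∑ z ∈ X, π z + (w - 2 * t) := by
    by_cases hYc : Y.card ≤ 2 * t
    · obtain ⟨X, hX1, -, hX2⟩ := Finset.exists_subsuperset_card_eq (subset_univ Y) hYc
        (by rw [card_univ]; exact hm)
      refine ⟨X, hX2, ?_⟩
      have h1 : ∑ z ∈ Y, π z ≤ ∑ z ∈ X, π z :=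
        Finset.sum_le_sum_of_subset_of_nonneg hX1 (fun z _ _ => hπ0 z)
      have h2 : (2 * t : ℝ) ≤ w := by
        have : 2 * t ≤ w := by omega
        exact_mod_cast this
      linarith
    · obtain ⟨X, hX1, hX2⟩ := Finset.exists_subset_card_eq (Nat.le_of_lt (not_le.mp hYc))
      refine ⟨X, hX2, ?_⟩
      rw [← Finset.sum_sdiff hX1]
      have h1 : ∑ z ∈ Y \ X, π z ≤ ∑ z ∈ Y \ X, 1 := Finset.sum_le_sum (fun z _ => hπ1 z)
      rw [sum_const, card_sdiff_of_subset hX1, hX2, nsmul_eq_mul, mul_one] at h1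
      have h2 : ((Y.card - 2 * t : ℕ) : ℝ) ≤ w - 2 * t := by
        have : Y.card - 2 * t ≤ w - 2 * t := by omega
        have h3 : ((w - 2 * t : ℕ) : ℝ) = (w : ℝ) - 2 * t := by
          rw [Nat.cast_sub (by omega)]; push_cast; ring
        rw [← h3]
        exact_mod_cast this
      linarith
  obtain ⟨X, hXc, hXs⟩ := hXex
  refine ⟨X, hXc, ?_⟩
  have hall : ∑ z : V, π z ≤ w := by
    have h1 : Ev q (fun W => ((Lt G w W).card : ℝ)) = ∑ z : V, π z := by
      have : ∀ W : Finset V, ((Lt G w W).card : ℝ) = ∑ z : V, ind (z ∈ Lt G w W) :=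
        fun W => card_eq_sum_ind _
      simp_rw [this]
      rw [Ev_sum]
    rw [← h1]
    have : Ev q (fun W => ((Lt G w W).card : ℝ)) ≤ Ev q (fun _ : Finset V => (w : ℝ)) :=
      Ev_mono hq0.le (by linarith) (fun W => by exact_mod_cast Lt_card G w W)
    rwa [Ev_const] at this
  have hdiff : Ev q (fun W => ((Lt G w W \ X).card : ℝ)) = ∑ z : V, π z - ∑ z ∈ X, π z := by
    have : ∀ W : Finset V, ((Lt G w W \ X).card : ℝ) + ∑ z ∈ X, ind (z ∈ Lt G w W) =
        ∑ z : V, ind (z ∈ Lt G w W) := by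
      intro W
      rw [← card_inter_eq_sum_ind, ← card_eq_sum_ind]
      exact_mod_cast Finset.card_sdiff_add_card_inter _ _
    have h1 : Ev q (fun W => ((Lt G w W \ X).card : ℝ)) + ∑ z ∈ X, π z = ∑ z : V, π z := by
      rw [← Ev_sum (univ : Finset V), ← Ev_sum X, ← Ev_add]
      congr 1
      funext W
      exact this W
    linarith
  have hmark := markov hq0.le (by linarith) (fun W => (Lt G w W \ X).card) (3 + t / 8)
  rw [hdiff] at hmark
  -- the event
  have hev : (1 : ℝ) ≤ Ev q (fun W => ind ((lo G W \ X).card ≤ 3 + t / 8 ∧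
      (lo G W).card ≤ 4 * t)) + Ev q (fun W => ind (w < (lo G W).card)) +
      Ev q (fun W => ind (3 + t / 8 < (Lt G w W \ X).card)) := by
    rw [← Ev_add, ← Ev_add]
    have : Ev q (fun _ : Finset V => (1 : ℝ)) ≤ Ev q (fun W =>
        ind ((lo G W \ X).card ≤ 3 + t / 8 ∧ (lo G W).card ≤ 4 * t) +
        ind (w < (lo G W).card) + ind (3 + t / 8 < (Lt G w W \ X).card)) := by
      apply Ev_mono hq0.le (by linarith)
      intro W
      have a1 := ind_nonneg ((lo G W \ X).card ≤ 3 + t / 8 ∧ (lo G W).card ≤ 4 * t)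
      have a2 := ind_nonneg (w < (lo G W).card)
      have a3 := ind_nonneg (3 + t / 8 < (Lt G w W \ X).card)
      by_cases f1 : w < (lo G W).card
      · rw [ind_pos f1] at *; linarith
      · by_cases f2 : 3 + t / 8 < (Lt G w W \ X).card
        · rw [ind_pos f2] at *; linarith
        · have e1 : Lt G w W = lo G W := by unfold Lt; rw [if_pos (not_lt.mp f1)]
          rw [e1] at f2
          have : (lo G W \ X).card ≤ 3 + t / 8 ∧ (lo G W).card ≤ 4 * t := by
            constructor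
            · exact not_lt.mp f2
            · omega
          rw [ind_pos this]; linarith
    rwa [Ev_const] at this
  -- numbers
  have hwr : (w : ℝ) ≤ 2 * t + 1 + (2 * t + 1) / 200 := by
    rw [hw]
    push_cast
    have : (((2 * t + 1) / 200 : ℕ) : ℝ) ≤ ((2 * t + 1 : ℕ) : ℝ) / 200 := Nat.cast_div_le
    push_cast at this
    linarith
  have ht8 : ((t : ℝ) - 7) / 8 ≤ ((t / 8 : ℕ) : ℝ) := by
    have : t ≤ 8 * (t / 8) + 7 := by omega
    have h2 : (t : ℝ) ≤ 8 * ((t / 8 : ℕ) : ℝ) + 7 := by exact_mod_cast this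
    linarith
  have ht0 : (4 : ℝ) ≤ t := by exact_mod_cast ht4
  have hE1 : ((3 + t / 8 : ℕ) : ℝ) + 1 ≥ 3.125 + t / 8 := by
    push_cast
    push_cast at ht8
    linarith
  have hq1 := hP.q1
  have hs : 4 * (t : ℝ) * q + 6 * q * w ≤ t / 1000 := by
    have : (w : ℝ) ≤ 3 * t := by linarith
    have h1 : 6 * q * w ≤ 6 * q * (3 * t) := mul_le_mul_of_nonneg_left this (by positivity)
    have h2 : 4 * (t : ℝ) * q + 6 * q * (3 * t) = 22 * t * q := by ring
    have h3 : 22 * (t : ℝ) * q ≤ 22 * t * (1 / 10 ^ 15) :=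
      mul_le_mul_of_nonneg_left hq1 (by positivity)
    linarith
  have hE2 : ∑ z : V, π z - ∑ z ∈ X, π z ≤ 2.01 + 0.021 * t := by
    linarith
  have hp0 : 0 ≤ Ev q (fun W => ind (3 + t / 8 < (Lt G w W \ X).card)) := by
    have : Ev q (fun _ : Finset V => (0 : ℝ)) ≤ Ev q (fun W => ind (3 + t / 8 < (Lt G w W \ X).card)) :=
      Ev_mono hq0.le (by linarith) (fun W => ind_nonneg _)
    rwa [Ev_const] at this
  have hp : Ev q (fun W => ind (3 + t / 8 < (Lt G w W \ X).card)) ≤ 9 / 10 := by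
    by_contra hcon
    push Not at hcon
    have h1 : (3.125 + (t : ℝ) / 8) * (9 / 10) ≤
        (((3 + t / 8 : ℕ) : ℝ) + 1) * Ev q (fun W => ind (3 + t / 8 < (Lt G w W \ X).card)) :=
      mul_le_mul hE1 hcon.le (by norm_num) (by positivity)
    linarith
  linarith

end Pool.Agent.H30.Diam.B32
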