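import Pool.Agent.H30.Diam.Basic32

/-! DIAM-11. -/

set_option autoImplicit false

namespace Pool.Agent.H30.Diam.B32

open Finset

theorem stage1 (hR : S_recentre) (hS : S_findS) (hL : S_findL) : S_stage1 := by
  intro d m q hP V _ _ hV 𝓔 hE
  have hq0 := hP.q0
  have hU : 0 ≤ U d (Fintype.card V) := by unfold U; positivity
  have heps : ∀ i, 0 < eps i := fun i => by unfold eps; positivity
  -- some centre which is good at `d`
  have hex : ∃ I, I ≤ d ∧ ∃ X : Finset V, Even X.card ∧ Good d (sh X 𝓔) I := by
    refine ⟨d, le_rfl, ?_⟩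
    by_cases hne : 𝓔.Nonempty
    · obtain ⟨F₀, hF₀⟩ := hne
      by_cases hpar : Even F₀.card
      · refine ⟨F₀, hpar, ?_⟩
        intro i hi
        have : lev (sh F₀ 𝓔) (d + 2 * i) = ∅ := by
          rw [Finset.eq_empty_iff_forall_notMem]
          intro F hF
          rw [lev_mem, mem_sh] at hF
          have := hE.diam _ hF.1 _ hF₀
          rw [symmDiff_symmDiff_cancel_right] at this
          omega
        rw [this, card_empty, Nat.cast_zero]
        exact mul_nonneg (heps i).le hU
      · have hF₀ne : F₀.Nonempty := by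
          rw [Finset.nonempty_iff_ne_empty]
          rintro rfl
          exact hpar (by simp)
        obtain ⟨x, hx⟩ := hF₀ne
        refine ⟨F₀.erase x, ?_, ?_⟩
        · rw [card_erase_of_mem hx]
          rw [Nat.not_even_iff_odd] at hpar
          obtain ⟨k, hk⟩ := hpar
          exact ⟨k, by omega⟩
        · intro i hi
          have : lev (sh (F₀.erase x) 𝓔) (d + 2 * i) = ∅ := by
            rw [Finset.eq_empty_iff_forall_notMem]
            intro F hF
            rw [lev_mem, mem_sh] at hF
            have h1 := hE.diam _ hF.1 _ hF₀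
            have h2 : F ⊆ insert x (symmDiff (symmDiff F (F₀.erase x)) F₀) := by
              intro y hy
              by_cases hyx : y = x
              · rw [hyx]; exact mem_insert_self _ _
              · apply mem_insert_of_mem
                simp only [mem_symmDiff, mem_erase, ne_eq, hyx, not_false_eq_true, true_and]
                tauto
            have h3 := card_le_card h2
            have h4 := card_insert_le x (symmDiff (symmDiff F (F₀.erase x)) F₀)
            have h5 := hF.2
            omega
          rw [this, card_empty, Nat.cast_zero]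
          exact mul_nonneg (heps i).le hU
    · refine ⟨∅, by simp, ?_⟩
      intro i hi
      have : lev (sh ∅ 𝓔) (d + 2 * i) = ∅ := by
        rw [Finset.not_nonempty_iff_eq_empty] at hne
        rw [hne]
        rfl
      rw [this, card_empty, Nat.cast_zero]
      exact mul_nonneg (heps i).le hU
  -- the least one
  have hex' : ∃ I, ∃ X : Finset V, Even X.card ∧ Good d (sh X 𝓔) I := by
    obtain ⟨I, -, h⟩ := hex
    exact ⟨I, h⟩
  classical
  obtain ⟨X, hXe, hXg⟩ := Nat.find_spec hex'
  have hmin := fun k => Nat.find_min hex' (m := k)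
  have htd : Nat.find hex' ≤ d := by
    obtain ⟨I, hI, h⟩ := hex
    exact (Nat.find_min' hex' h).trans hI
  generalize Nat.find hex' = t at *
  by_cases ht1 : t ≤ 1
  · exact ⟨X, hXe, fun i hi => hXg i (by omega)⟩
  exfalso
  push Not at ht1
  have hE' : Fam d (sh X 𝓔) := fam_sh hE hXe
  -- the level `t` is large
  have hlev : eps t * U d (Fintype.card V) < ((lev (sh X 𝓔) (d + 2 * t)).card : ℝ) := by
    by_contra hcon
    push Not at hcon
    apply hmin (t - 1) (by omega)
    refine ⟨X, hXe, ?_⟩
    intro i hi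
    rcases Nat.lt_or_ge t i with h | h
    · exact hXg i h
    · have : i = t := by omega
      rw [this]; exact hcon
  have hbig : eps (t + 1) / (2 * (t + 1) + 1) * U d m ≤
      ((lev (sh X 𝓔) (d + 2 * t)).card : ℝ) := by
    rw [← hV]
    refine le_trans ?_ hlev.le
    apply mul_le_mul_of_nonneg_right _ hU
    have h1 : eps (t + 1) ≤ eps t := by
      unfold eps
      apply mul_le_mul_of_nonneg_left _ (by norm_num)
      exact pow_le_pow_of_le_one (by norm_num) (by norm_num) (Nat.le_succ t)
    refine le_trans (div_le_self (heps _).le ?_) h1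
    have : (0 : ℝ) ≤ t := by positivity
    linarith
  have hne : (lev (sh X 𝓔) (d + 2 * t)).Nonempty := by
    rw [← card_pos]
    have : (0 : ℝ) < ((lev (sh X 𝓔) (d + 2 * t)).card : ℝ) :=
      lt_of_le_of_lt (mul_nonneg (heps t).le hU) hlev
    exact_mod_cast this
  have hfind : ∃ (X₀ : Finset V) (r : ℕ), X₀.card = 2 * t ∧ (∀ i, t ≤ i → i / 8 + r < i) ∧
      (1 / 100 : ℝ) ≤ Ev q (fun W => ind ((lo (lev (sh X 𝓔) (d + 2 * t)) W \ X₀).card ≤ r ∧
        (lo (lev (sh X 𝓔) (d + 2 * t)) W).card ≤ 4 * t)) := by
    by_cases ht3 : t ≤ 3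
    · obtain ⟨X₀, hX₀, h⟩ := hS d m q hP V hV (sh X 𝓔) hE' t _ (Subset.refl _) (by omega) ht3 htd
        hbig
      refine ⟨X₀, 1, hX₀, fun i hi => by omega, ?_⟩
      refine le_trans (by norm_num : (1 / 100 : ℝ) ≤ 1 / 20) (h.trans ?_)
      apply Ev_mono hq0.le (hP.q1.trans (by norm_num))
      intro W
      apply ind_mono
      rintro ⟨h1, h2⟩
      constructor
      · rw [card_sdiff_of_subset h1, hX₀]
        omega
      · omega
    · obtain ⟨X₀, hX₀, h⟩ := hL d m q hP V hV (sh X 𝓔) hE' t _ (Subset.refl _) (by omega) htd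
        hbig
      exact ⟨X₀, 3 + t / 8, hX₀, fun i hi => by omega, h⟩
  obtain ⟨X₀, r, hX₀, hr, hev⟩ := hfind
  apply hmin (t - 1) (by omega)
  refine ⟨symmDiff X X₀, ?_, ?_⟩
  · have := card_symmDiff X X₀
    obtain ⟨k, hk⟩ := hXe
    exact ⟨k + t - (X ∩ X₀).card, by omega⟩
  · rw [← sh_sh]
    intro i hi
    rw [hV]
    exact hR d m q hP V hV (sh X 𝓔) hE' t i r _ X₀ (Subset.refl _) hne hX₀ (by omega) htd (by omega)
      (hr i (by omega)) hev

end Pool.Agent.H30.Diam.B32
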