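import Pool.Agent.H30.Diam.Recentre
import Pool.Agent.H30.Diam.Stage32
import Pool.Agent.H30.Diam.Find32
import Pool.Agent.H36.Diam.Mix
import Pool.Agent.H36.Diam.Cross
import Pool.Agent.H36.Diam.Pair
import Pool.Agent.H82.Diam.Blow
import Pool.Agent.H82.Diam.Slice
import Pool.Agent.H82.Diam.Capt
import Pool.Agent.H82.Diam.Pop
import Pool.Agent.H92.Diam.KK
import Pool.Agent.H92.Diam.Exact
import Pool.Agent.H92.Diam.Tail
import Pool.Agent.H31.Diam.Even
import Pool.Agent.H31.Diam.Final

/-! Assembly of the even case. -/

namespace Pool.Agent.H30.Diam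

theorem t_tail : S_tail := Pool.Agent.H92.Diam.tail Pool.Agent.H82.Diam.blow Pool.Agent.H82.Diam.slice
theorem t_recentre : S_recentre := recentre t_tail Pair.pair
theorem t_findS : S_findS := B32.findS t_tail Cross.cross Mix.common
theorem t_findL : S_findL := B32.findL t_tail Cross.cross Mix.common
theorem t_stage1 : S_stage1 := B32.stage1 t_recentre t_findS t_findL
theorem t_capt : S_capt := Pool.Agent.H82.Diam.capt t_tail Pair.pair
theorem t_popPair : S_popPair :=
  Pool.Agent.H82.Diam.popPair t_tail t_findS Mix.common Cross.cross t_capt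
theorem t_triple : S_triple := Pool.Agent.H82.Diam.triple t_tail Mix.common Cross.cross
theorem t_struct : S_struct := struct t_recentre t_popPair t_triple t_capt
theorem t_exact : S_exact := Pool.Agent.H92.Diam.exact_step
theorem t_even : S_even := Pool.Agent.H31.Diam.even t_stage1 t_struct t_exact
theorem t_final : S_final := Pool.Agent.H31.Diam.final t_even

end Pool.Agent.H30.Diam

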