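import Pool.Agent.H30.Diam.Stubs2
import Pool.Agent.H30.Diam.Basic32

/-! DIAM-31 and DIAM-32. -/

set_option autoImplicit false

namespace Pool.Agent.H30.Diam.B32

open Finset

theorem dich (h1 : S_stage1) (h2 : S_struct) : S_dich := by
  classical
  intro d m q hP V _ _ hV 𝓔 hE
  obtain ⟨X₁, hX₁, hG₁⟩ := h1 d m q hP V hV 𝓔 hE
  have hne : (univ.filter (fun X : Finset V => Even X.card ∧ Good d (sh X 𝓔) 1)).Nonempty :=
    ⟨X₁, mem_filter.mpr ⟨mem_univ _, hX₁, hG₁⟩⟩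
  obtain ⟨X, hX, hmin⟩ := Finset.exists_min_image _ (fun X => (lev (sh X 𝓔) (d + 2)).card) hne
  rw [mem_filter] at hX
  obtain ⟨-, hXe, hXg⟩ := hX
  refine ⟨X, hXe, ?_⟩
  by_cases hs : ((lev (sh X 𝓔) (d + 2)).card : ℝ) ≤ del * U d (Fintype.card V)
  · exact Or.inl ⟨hXg, hs⟩
  · right
    push Not at hs
    have hE' : Fam d (sh X 𝓔) := fam_sh hE hXe
    obtain ⟨Q, hQ, a1, a2, a3, a4⟩ := h2 d m q hP V hV (sh X 𝓔) hE' hXg (by
      intro X' hX' hg
      rw [sh_sh] at hg ⊢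
      apply hmin
      rw [mem_filter]
      refine ⟨mem_univ _, ?_, hg⟩
      have := card_symmDiff X X'
      obtain ⟨k, hk⟩ := hXe
      exact ⟨k + 1 - (X ∩ X').card, by omega⟩) (by rw [← hV]; exact hs.le)
    rw [← hV] at a1 a2 a3 a4
    exact ⟨Q, hXg, hQ, a1, a2, a3, a4⟩

section
variable {V : Type} [Fintype V] [DecidableEq V]

theorem ov_sh (d : ℕ) (𝓔 : Finset (Finset V)) (X A : Finset V) :
    ov d (sh X 𝓔) A = ov d 𝓔 (symmDiff X A) := by
  unfold ov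
  apply Finset.card_bij (fun F _ => symmDiff F X)
  · intro F hF
    rw [mem_filter, mem_sh] at hF
    rw [mem_filter]
    refine ⟨hF.1, ?_⟩
    have : symmDiff (symmDiff F X) (symmDiff X A) = symmDiff F A := by
      rw [symmDiff_assoc, symmDiff_symmDiff_cancel_left]
    rw [this]
    exact hF.2
  · intro F _ G _ h
    exact sh_inj X h
  · intro G hG
    rw [mem_filter] at hG
    refine ⟨symmDiff G X, ?_, symmDiff_symmDiff_cancel_right _ _⟩
    rw [mem_filter, mem_sh, symmDiff_symmDiff_cancel_right]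
    refine ⟨hG.1, ?_⟩
    rw [symmDiff_assoc]
    exact hG.2

theorem cross_swap {d : ℕ} {𝓐 𝓑 : Finset (Finset V)} {D : Finset V} (h : Cross d 𝓐 𝓑 D) :
    Cross d 𝓑 𝓐 D := by
  refine ⟨h.fb, h.fa, h.odd, ?_⟩
  intro F hF G hG
  rw [symmDiff_comm F G]
  exact h.dist G hG F hF

theorem goal_swap {d : ℕ} {𝓐 𝓑 : Finset (Finset V)} {D : Finset V} (hD : D.card % 2 = 1)
    (h : Goal d 𝓐 𝓑 D) : Goal d 𝓑 𝓐 D := by
  obtain ⟨A, x, hA, hle⟩ := h
  refine ⟨symmDiff (symmDiff A {x}) D, x, ?_, ?_⟩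
  · have h1 := card_symmDiff A {x}
    have h2 := card_symmDiff (symmDiff A {x}) D
    rw [card_singleton] at h1
    obtain ⟨k, hk⟩ := hA
    rw [Nat.even_iff]
    omega
  · have : symmDiff (symmDiff (symmDiff (symmDiff A {x}) D) {x}) D = A := by
      rw [symmDiff_assoc (symmDiff A {x}) D {x}, symmDiff_comm D {x},
        ← symmDiff_assoc (symmDiff A {x}) {x} D, symmDiff_symmDiff_cancel_right,
        symmDiff_symmDiff_cancel_right]
    rw [this]
    omega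

theorem cross_sh {d : ℕ} {𝓐 𝓑 : Finset (Finset V)} {D X Y : Finset V} (h : Cross d 𝓐 𝓑 D)
    (hX : Even X.card) (hY : Even Y.card) :
    Cross d (sh X 𝓐) (sh Y 𝓑) (symmDiff (symmDiff D X) Y) := by
  refine ⟨fam_sh h.fa hX, fam_sh h.fb hY, ?_, ?_⟩
  · have h1 := card_symmDiff D X
    have h2 := card_symmDiff (symmDiff D X) Y
    have h3 := h.odd
    obtain ⟨k, hk⟩ := hX
    obtain ⟨l, hl⟩ := hY
    omega
  · intro F hF G hG
    rw [mem_sh] at hF hG
    have := h.dist _ hF _ hG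
    have e : symmDiff (symmDiff (symmDiff F X) (symmDiff G Y)) D =
        symmDiff (symmDiff F G) (symmDiff (symmDiff D X) Y) := by
      ext z
      simp only [mem_symmDiff]
      tauto
    rwa [e] at this

theorem goal_sh {d : ℕ} {𝓐 𝓑 : Finset (Finset V)} {D X Y : Finset V}
    (hX : Even X.card)
    (h : Goal d (sh X 𝓐) (sh Y 𝓑) (symmDiff (symmDiff D X) Y)) : Goal d 𝓐 𝓑 D := by
  obtain ⟨A, x, hA, hle⟩ := h
  refine ⟨symmDiff X A, x, ?_, ?_⟩
  · have h1 := card_symmDiff X A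
    obtain ⟨k, hk⟩ := hX
    obtain ⟨l, hl⟩ := hA
    exact ⟨k + l - (X ∩ A).card, by omega⟩
  · rw [ov_sh, ov_sh] at hle
    have e : symmDiff Y (symmDiff (symmDiff A {x}) (symmDiff (symmDiff D X) Y)) =
        symmDiff (symmDiff (symmDiff X A) {x}) D := by
      ext z
      simp only [mem_symmDiff]
      tauto
    rwa [e] at hle

end

theorem odd (h1 : S_dich) (hss : S_ss) (hks : S_ks) (hkk : S_kkcase) : S_odd := by
  intro d m q hP V _ _ hV 𝓐 𝓑 D hC
  obtain ⟨X, hX, hA⟩ := h1 d m q hP V hV 𝓐 hC.fa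
  obtain ⟨Y, hY, hB⟩ := h1 d m q hP V hV 𝓑 hC.fb
  have hC' := cross_sh hC hX hY
  apply goal_sh hX (Y := Y)
  rcases hA with hA | ⟨Q, hA⟩
  · rcases hB with hB | ⟨Q', hB⟩
    · exact hss d m q hP V hV _ _ _ hC' hA hB
    · exact goal_swap hC'.odd (hks d m q hP V hV _ _ _ Q' (cross_swap hC') hB hA)
  · rcases hB with hB | ⟨Q', hB⟩
    · exact hks d m q hP V hV _ _ _ Q hC' hA hB
    · exact hkk d m q hP V hV _ _ _ Q Q' hC' hA hB

end Pool.Agent.H30.Diam.B32
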