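import Pool.Agent.H30.Diam.Struct

/-! DIAM-8: re-centring. -/

namespace Pool.Agent.H30.Diam

open Finset

section
variable {V : Type} [DecidableEq V]

/-- the basic covering of the intersection of two witnesses. -/
theorem inter_wit_sub (G B : Finset (Finset V)) (W W' : Finset V) (hd : Disjoint W W') :
    wit G W ∩ wit B W' ⊆ (lo G W ∩ lo B W') ∪ ((lo G W ∩ W') ∪ (lo B W' ∩ W)) := by
  intro x hx
  rw [Finset.mem_inter] at hx
  unfold lo
  simp only [Finset.mem_union, Finset.mem_inter, Finset.mem_sdiff]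
  by_cases h1 : x ∈ W
  · have h2 : x ∉ W' := Finset.disjoint_left.1 hd h1
    right; right; exact ⟨⟨hx.2, h2⟩, h1⟩
  · by_cases h2 : x ∈ W'
    · right; left; exact ⟨⟨hx.1, h1⟩, h2⟩
    · left; exact ⟨⟨hx.1, h1⟩, ⟨hx.2, h2⟩⟩

theorem card_inter_wit (G B : Finset (Finset V)) (W W' : Finset V) (hd : Disjoint W W') :
    (wit G W ∩ wit B W').card ≤ (lo G W ∩ lo B W').card + ((lo G W ∩ W').card +
      (lo B W' ∩ W).card) :=
  (Finset.card_le_card (inter_wit_sub G B W W' hd)).trans
    ((Finset.card_union_le _ _).trans (Nat.add_le_add_left (Finset.card_union_le _ _) _))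

end

theorem Ev_compl {V : Type} [Fintype V] [DecidableEq V] (q : ℝ) (p : Finset V → Prop) :
    Ev q (fun W => ind (¬ p W)) = 1 - Ev q (fun W => ind (p W)) := by
  have : (fun W => ind (¬ p W)) = fun W => 1 - ind (p W) := by
    funext W; exact ind_not _
  rw [this, Ev_sub, Ev_const]

theorem recentre (htl : S_tail) (hpr : S_pair) : S_recentre := by
  intro d m q hp V _ _ hm 𝓔 hF t i r G X hG hGn hX ht1 htd hti hir hpop
  have hq0 := hp.q0.le
  have hq1 : q ≤ 1 := hp.q1.trans (by norm_num)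
  have hU := hp.U_pos
  have heps : 0 < eps i := by unfold eps; positivity
  by_contra hc
  push Not at hc
  rw [card_sh_lev] at hc
  set S := 𝓔.filter (fun F => (symmDiff F X).card = d + 2 * i) with hS
  set Bc : ℕ → Finset (Finset V) := fun c =>
    𝓔.filter (fun F => F.card = d + 2 * (i - t + c) ∧ (symmDiff F X).card = d + 2 * i) with hBc
  have hcov : S ⊆ (Finset.range (2 * t + 1)).biUnion Bc := by
    intro F hFm
    rw [hS, Finset.mem_filter] at hFm
    have h1 := card_symmDiff_add F X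
    have h2 : (F ∩ X).card ≤ 2 * t := hX ▸ Finset.card_le_card Finset.inter_subset_right
    rw [Finset.mem_biUnion]
    refine ⟨(F ∩ X).card, Finset.mem_range.2 (by omega), ?_⟩
    rw [hBc, Finset.mem_filter]
    exact ⟨hFm.1, by omega, hFm.2⟩
  have hsum : (S.card : ℝ) ≤ ∑ c ∈ Finset.range (2 * t + 1), ((Bc c).card : ℝ) := by
    have := (Finset.card_le_card hcov).trans Finset.card_biUnion_le
    exact_mod_cast this
  obtain ⟨c, hcr, hcb⟩ : ∃ c ∈ Finset.range (2 * t + 1),
      eps i / (2 * i + 1) * U d m < (Bc c).card := by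
    by_contra hall
    push Not at hall
    have h1 := Finset.sum_le_sum hall
    rw [Finset.sum_const, Finset.card_range, nsmul_eq_mul] at h1
    have h2 : ((2 * t + 1 : ℕ) : ℝ) * (eps i / (2 * i + 1) * U d m) ≤ eps i * U d m := by
      have h3 : ((2 * t + 1 : ℕ) : ℝ) ≤ 2 * (i : ℝ) + 1 := by
        have : (t : ℝ) ≤ i := by exact_mod_cast hti
        push_cast; linarith
      have h4 : (0 : ℝ) < 2 * (i : ℝ) + 1 := by positivity
      have h5 : (0:ℝ) ≤ eps i / (2 * i + 1) * U d m := by positivity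
      calc ((2 * t + 1 : ℕ) : ℝ) * (eps i / (2 * i + 1) * U d m)
          ≤ (2 * (i : ℝ) + 1) * (eps i / (2 * i + 1) * U d m) := mul_le_mul_of_nonneg_right h3 h5
        _ = eps i * U d m := by field_simp
    linarith
  rw [Finset.mem_range] at hcr
  set k := i - t + c with hk
  set B := Bc c with hB
  have hBm : ∀ F ∈ B, F ∈ 𝓔 ∧ F.card = d + 2 * k ∧ (symmDiff F X).card = d + 2 * i := by
    intro F hFm
    rw [hB, hBc, Finset.mem_filter] at hFm
    exact hFm
  have hBn : B.Nonempty := by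
    rw [← Finset.card_pos]
    have : (0:ℝ) < B.card := by
      refine lt_of_le_of_lt ?_ hcb
      positivity
    exact_mod_cast this
  have hGm : ∀ F ∈ G, F ∈ 𝓔 ∧ F.card = d + 2 * t := by
    intro F hFm
    have := hG hFm
    unfold lev at this
    rwa [Finset.mem_filter] at this
  have hk2 : k ≤ 2 * d := by
    obtain ⟨F', hF'⟩ := hBn
    obtain ⟨F, hFG⟩ := hGn
    have h1 := hF.diam F (hGm F hFG).1 F' (hBm F' hF').1
    have h2 := card_symmDiff_add F F'
    have h3 := (hGm F hFG).2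
    have h4 := (hBm F' hF').2.1
    have h5 : (F ∩ F').card ≤ F.card := Finset.card_le_card Finset.inter_subset_left
    omega
  obtain ⟨-, htail⟩ := htl d m q hp V hm i k B hk2 (fun F hFm => (hBm F hFm).2.1) hcb.le
  have hy : 1 - q ≤ Ev q (fun W => ind ((lo B W).card ≤ 2 * k + 1 + (i + k) / 200)) := by
    have h1 := Ev_compl q (fun W : Finset V => 2 * k + 1 + (i + k) / 200 < (lo B W).card)
    have h2 : (fun W : Finset V => ind (¬ (2 * k + 1 + (i + k) / 200 < (lo B W).card))) =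
        fun W => ind ((lo B W).card ≤ 2 * k + 1 + (i + k) / 200) := by
      funext W; rw [not_lt]
    rw [h2] at h1
    rw [h1]; linarith
  have hnum : (1 - 1 / 100 : ℝ) + (1 - (1 - q)) +
      2 * q * (((4 * t : ℕ) : ℝ) + ((2 * k + 1 + (i + k) / 200 : ℕ) : ℝ)) / (((i / 8 : ℕ) : ℝ) + 1) < 1 := by
    have h1 : 4 * t + (2 * k + 1 + (i + k) / 200) ≤ 72 * (i / 8 + 1) := by omega
    have h2 : (((4 * t : ℕ) : ℝ) + ((2 * k + 1 + (i + k) / 200 : ℕ) : ℝ)) ≤
        72 * (((i / 8 : ℕ) : ℝ) + 1) := by exact_mod_cast h1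
    have h3 : (0 : ℝ) < ((i / 8 : ℕ) : ℝ) + 1 := by positivity
    have h4 : 2 * q * (((4 * t : ℕ) : ℝ) + ((2 * k + 1 + (i + k) / 200 : ℕ) : ℝ)) /
        (((i / 8 : ℕ) : ℝ) + 1) ≤ 144 * q := by
      rw [div_le_iff₀ h3]
      have := mul_le_mul_of_nonneg_left h2 (by linarith : (0:ℝ) ≤ 2 * q)
      linarith
    have h5 := hp.q1
    linarith
  obtain ⟨W, W', hd, h1, h2, he⟩ := hpr V q hp.q0 (hp.q1.trans (by norm_num)) G B
    (fun W => (lo G W \ X).card ≤ r ∧ (lo G W).card ≤ 4 * t)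
    (fun W => (lo B W).card ≤ 2 * k + 1 + (i + k) / 200) (4 * t) (2 * k + 1 + (i + k) / 200) (i / 8)
    (1 / 100) (1 - q) hpop (fun W h => h.2) hy (fun W h => h) hnum
  have hFG := hGm _ (wit_mem hGn W)
  have hFB := hBm _ (wit_mem hBn W')
  have h3 := hF.diam _ hFG.1 _ hFB.1
  have h4 := card_symmDiff_add (wit G W) (wit B W')
  have h5 := card_inter_wit G B W W' hd
  have h6 : (lo G W ∩ lo B W').card ≤ (wit B W' ∩ X).card + (lo G W \ X).card := by
    refine (Finset.card_le_card (t := (wit B W' ∩ X) ∪ (lo G W \ X)) ?_).trans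
      (Finset.card_union_le _ _)
    intro x hx
    rw [Finset.mem_inter] at hx
    rw [Finset.mem_union, Finset.mem_inter, Finset.mem_sdiff]
    by_cases hxX : x ∈ X
    · left; exact ⟨lo_sub B W' hx.2, hxX⟩
    · right; exact ⟨hx.1, hxX⟩
  have h7 := card_symmDiff_add (wit B W') X
  omega

end Pool.Agent.H30.Diam
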