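import Pool.Agent.H30.Diam.Stubs2
import Pool.Agent.H30.Diam.Recentre

/-! DIAM-25: both classes of type S. -/

namespace Pool.Agent.H30.Diam

open Finset

section
variable {V : Type} [DecidableEq V]

theorem star_ineq (L L' D : Finset V)
    (h : (symmDiff (symmDiff L L') D).card ≤ 1 + L.card + L'.card) :
    D.card ≤ 1 + 2 * (L ∩ L').card + 2 * (symmDiff L L' ∩ D).card := by
  have h1 := card_symmDiff_add (symmDiff L L') D
  have h2 := card_symmDiff_add L L'
  omega

theorem star_ineq_disj (L L' D : Finset V)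
    (h : (symmDiff (symmDiff L L') D).card ≤ 1 + L.card + L'.card) (hL : Disjoint L D)
    (hL' : L'.card ≤ 1) : D.card ≤ 3 := by
  have h1 := star_ineq L L' D h
  have h2 : (symmDiff L L' ∩ D).card ≤ (L' ∩ D).card := by
    apply Finset.card_le_card
    intro x hx
    rw [Finset.mem_inter, Finset.mem_symmDiff] at hx
    rw [Finset.mem_inter]
    rcases hx with ⟨h | h, hD⟩
    · exact absurd hD (Finset.disjoint_left.1 hL h.1)
    · exact ⟨h.1, hD⟩
  have h3 : (L ∩ L').card + (L' ∩ D).card ≤ L'.card := by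
    rw [← Finset.card_union_of_disjoint]
    · exact Finset.card_le_card (Finset.union_subset Finset.inter_subset_right
        Finset.inter_subset_left)
    · rw [Finset.disjoint_left]
      intro x hx hx'
      exact Finset.disjoint_left.1 hL (Finset.mem_inter.1 hx).1 (Finset.mem_inter.1 hx').2
  omega

theorem symmDiff3_comm (A D : Finset V) (x : V) :
    symmDiff (symmDiff (symmDiff (symmDiff A {x}) D) {x}) D = A := by
  rw [symmDiff_assoc (symmDiff (symmDiff A {x}) D) {x} D, symmDiff_comm ({x} : Finset V) D,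
    ← symmDiff_assoc, symmDiff_assoc (symmDiff A {x}) D D, symmDiff_self, symmDiff_bot,
    symmDiff_assoc, symmDiff_self, symmDiff_bot]

end

section
variable {V : Type} [Fintype V] [DecidableEq V]

theorem Cross.symm {d : ℕ} {𝓐 𝓑 : Finset (Finset V)} {D : Finset V} (h : Cross d 𝓐 𝓑 D) :
    Cross d 𝓑 𝓐 D :=
  ⟨h.fb, h.fa, h.odd, fun F hF G hG => by rw [symmDiff_comm F G]; exact h.dist G hG F hF⟩

theorem Goal.symm {d : ℕ} {𝓐 𝓑 : Finset (Finset V)} {D : Finset V} (hD : D.card % 2 = 1)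
    (h : Goal d 𝓐 𝓑 D) : Goal d 𝓑 𝓐 D := by
  obtain ⟨A, x, hA, h⟩ := h
  refine ⟨symmDiff (symmDiff A {x}) D, x, ?_, ?_⟩
  · have h1 := card_symmDiff_add A {x}
    have h2 := card_symmDiff_add (symmDiff A {x}) D
    rw [Finset.card_singleton] at h1
    rw [Nat.even_iff] at hA ⊢
    omega
  · rw [symmDiff3_comm]; omega

theorem geom_bound (n : ℕ) : ∑ i ∈ Finset.range n, eps (i + 2) ≤ 1 / 2 ^ 32 := by
  have h : ∀ n : ℕ, ∑ i ∈ Finset.range n, eps (i + 2) ≤ 1 / 2 ^ 32 * (1 - (1 / 4096 : ℝ) ^ n) := by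
    intro n
    induction n with
    | zero => simp
    | succ n ih =>
        rw [Finset.sum_range_succ]
        have e : eps (n + 2) = (1 / 2 ^ 33) * (1 / 4096 : ℝ) ^ n := by
          unfold eps; rw [pow_add]; norm_num; ring
        rw [e, pow_succ (1 / 4096 : ℝ) n]
        have : (0:ℝ) ≤ (1 / 4096 : ℝ) ^ n := by positivity
        linarith
  refine (h n).trans ?_
  have : (0:ℝ) ≤ (1 / 4096 : ℝ) ^ n := by positivity
  linarith

/-- total overflow at the centre `∅`. -/
theorem ov_empty_le {d : ℕ} {𝓔 : Finset (Finset V)} (hF : Fam d 𝓔) (hG : Good d 𝓔 1) :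
    ((𝓔.filter (fun F => d < F.card)).card : ℝ) ≤ (lev 𝓔 (d + 2)).card +
      (1 / 2 ^ 32) * U d (Fintype.card V) := by
  have hcov : 𝓔.filter (fun F => d < F.card) ⊆ lev 𝓔 (d + 2) ∪
      (Finset.range (Fintype.card V)).biUnion (fun i => lev 𝓔 (d + 2 * (i + 2))) := by
    intro F hFm
    rw [Finset.mem_filter] at hFm
    have h1 := hF.par F hFm.1
    have h2 : F.card ≤ Fintype.card V := Finset.card_le_univ F
    unfold lev
    rw [Finset.mem_union, Finset.mem_biUnion, Finset.mem_filter]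
    by_cases h3 : F.card = d + 2
    · left; exact ⟨hFm.1, h3⟩
    · right
      refine ⟨(F.card - d) / 2 - 2, Finset.mem_range.2 (by omega), ?_⟩
      rw [Finset.mem_filter]
      exact ⟨hFm.1, by omega⟩
  have h1 := (Finset.card_le_card hcov).trans (Finset.card_union_le _ _)
  have h2 := h1.trans (Nat.add_le_add_left Finset.card_biUnion_le _)
  have h3 : ((𝓔.filter (fun F => d < F.card)).card : ℝ) ≤ (lev 𝓔 (d + 2)).card +
      ∑ i ∈ Finset.range (Fintype.card V), ((lev 𝓔 (d + 2 * (i + 2))).card : ℝ) := by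
    exact_mod_cast h2
  have h4 : ∑ i ∈ Finset.range (Fintype.card V), ((lev 𝓔 (d + 2 * (i + 2))).card : ℝ) ≤
      ∑ i ∈ Finset.range (Fintype.card V), eps (i + 2) * U d (Fintype.card V) :=
    Finset.sum_le_sum (fun i _ => hG (i + 2) (by omega))
  rw [← Finset.sum_mul] at h4
  have hU : 0 ≤ U d (Fintype.card V) := by unfold U; positivity
  have h5 := mul_le_mul_of_nonneg_right (geom_bound (Fintype.card V)) hU
  linarith

/-- overflow at a general centre. -/
theorem ov_le (d : ℕ) (𝓔 : Finset (Finset V)) (A : Finset V) :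
    ov d 𝓔 A ≤ (𝓔.filter (fun F => d < F.card)).card + (𝓔.filter (fun F => F.card < d)).card +
      ((lev 𝓔 d).filter (fun F => d < (symmDiff F A).card)).card := by
  unfold ov
  have hcov : 𝓔.filter (fun F => d < (symmDiff F A).card) ⊆
      (𝓔.filter (fun F => d < F.card) ∪ 𝓔.filter (fun F => F.card < d)) ∪
      (lev 𝓔 d).filter (fun F => d < (symmDiff F A).card) := by
    intro F hF
    rw [Finset.mem_filter] at hF
    unfold lev
    simp only [Finset.mem_union, Finset.mem_filter]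
    rcases lt_trichotomy F.card d with h | h | h
    · left; right; exact ⟨hF.1, h⟩
    · right; exact ⟨⟨hF.1, h⟩, hF.2⟩
    · left; left; exact ⟨hF.1, h⟩
  exact (Finset.card_le_card hcov).trans ((Finset.card_union_le _ _).trans
    (Nat.add_le_add_right (Finset.card_union_le _ _) _))

theorem ov_pair_le (d : ℕ) (𝓔 : Finset (Finset V)) (A : Finset V) (hA : A.card = 2) :
    ov d 𝓔 A ≤ (𝓔.filter (fun F => d < F.card)).card + (𝓔.filter (fun F => F.card < d)).card +
      ((lev 𝓔 d).filter (fun F => Disjoint F A)).card := by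
  refine (ov_le d 𝓔 A).trans (Nat.add_le_add_left (Finset.card_le_card ?_) _)
  intro F hF
  rw [Finset.mem_filter] at hF ⊢
  refine ⟨hF.1, ?_⟩
  have h1 := card_symmDiff_add F A
  have h2 := hF.1
  unfold lev at h2
  rw [Finset.mem_filter] at h2
  rw [Finset.disjoint_iff_inter_eq_empty, ← Finset.card_eq_zero]
  omega

/-- sets of size `d` containing `a` and disjoint from the pair `A`. -/
theorem cnt3 {d m : ℕ} (hd : 1 ≤ d) (hm : Fintype.card V = m)
    (𝓔 : Finset (Finset V)) (a : V) (A : Finset V) (hA : A.card = 2) (ha : a ∉ A) :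
    ((lev 𝓔 d).filter (fun F => a ∈ F ∧ Disjoint F A)).card ≤ (m - 3).choose (d - 1) := by
  have h1 : ((lev 𝓔 d).filter (fun F => a ∈ F ∧ Disjoint F A)).card ≤
      (Finset.powersetCard (d - 1) (univ \ insert a A)).card := by
    apply Finset.card_le_card_of_injOn (fun F => F.erase a)
    · intro F hF
      rw [Finset.mem_coe, Finset.mem_filter] at hF
      have h2 := hF.1
      unfold lev at h2
      rw [Finset.mem_filter] at h2
      rw [Finset.mem_coe, Finset.mem_powersetCard]
      refine ⟨?_, by rw [Finset.card_erase_of_mem hF.2.1, h2.2]⟩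
      intro x hx
      rw [Finset.mem_erase] at hx
      rw [Finset.mem_sdiff, Finset.mem_insert]
      refine ⟨Finset.mem_univ _, ?_⟩
      rintro (h | h)
      · exact hx.1 h
      · exact Finset.disjoint_left.1 hF.2.2 hx.2 h
    · intro F hF F' hF' h
      rw [Finset.mem_coe, Finset.mem_filter] at hF hF'
      have h' : F.erase a = F'.erase a := h
      rw [← Finset.insert_erase hF.2.1, ← Finset.insert_erase hF'.2.1, h']
  rw [Finset.card_powersetCard, Finset.card_sdiff_of_subset (Finset.subset_univ _),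
    Finset.card_univ, hm, Finset.card_insert_of_notMem ha, hA] at h1
  exact h1

theorem cnt1 {d m : ℕ} (hm : Fintype.card V = m) (𝓔 : Finset (Finset V)) (a : V) :
    ((lev 𝓔 d).filter (fun F => a ∈ F)).card ≤ (m - 1).choose (d - 1) := by
  have h1 : ((lev 𝓔 d).filter (fun F => a ∈ F)).card ≤
      (Finset.powersetCard (d - 1) (univ \ {a})).card := by
    apply Finset.card_le_card_of_injOn (fun F => F.erase a)
    · intro F hF
      rw [Finset.mem_coe, Finset.mem_filter] at hF
      have h2 := hF.1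
      unfold lev at h2
      rw [Finset.mem_filter] at h2
      rw [Finset.mem_coe, Finset.mem_powersetCard]
      refine ⟨?_, by rw [Finset.card_erase_of_mem hF.2, h2.2]⟩
      intro x hx
      rw [Finset.mem_erase] at hx
      rw [Finset.mem_sdiff, Finset.mem_singleton]
      exact ⟨Finset.mem_univ _, hx.1⟩
    · intro F hF F' hF' h
      rw [Finset.mem_coe, Finset.mem_filter] at hF hF'
      have h' : F.erase a = F'.erase a := h
      rw [← Finset.insert_erase hF.2, ← Finset.insert_erase hF'.2, h']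
  rw [Finset.card_powersetCard, Finset.card_sdiff_of_subset (Finset.subset_univ _),
    Finset.card_univ, hm, Finset.card_singleton] at h1
  exact h1

/-- covering the sets of size `d` disjoint from `A ⊆ D`. -/
theorem cover_disj {d : ℕ} (𝓔 : Finset (Finset V)) (A D : Finset V) :
    ((lev 𝓔 d).filter (fun F => Disjoint F A)).card ≤
      ((lev 𝓔 d).filter (fun F => Disjoint F D)).card +
      ∑ z ∈ D \ A, ((lev 𝓔 d).filter (fun F => z ∈ F ∧ Disjoint F A)).card := by
  have hcov : (lev 𝓔 d).filter (fun F => Disjoint F A) ⊆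
      (lev 𝓔 d).filter (fun F => Disjoint F D) ∪
      (D \ A).biUnion (fun z => (lev 𝓔 d).filter (fun F => z ∈ F ∧ Disjoint F A)) := by
    intro F hF
    rw [Finset.mem_filter] at hF
    rw [Finset.mem_union, Finset.mem_filter, Finset.mem_biUnion]
    by_cases h : Disjoint F D
    · left; exact ⟨hF.1, h⟩
    · right
      rw [Finset.not_disjoint_iff] at h
      obtain ⟨z, hzF, hzD⟩ := h
      refine ⟨z, Finset.mem_sdiff.2 ⟨hzD, Finset.disjoint_left.1 hF.2 hzF⟩, ?_⟩
      rw [Finset.mem_filter]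
      exact ⟨hF.1, hzF, hF.2⟩
  exact (Finset.card_le_card hcov).trans ((Finset.card_union_le _ _).trans
    (Nat.add_le_add_left Finset.card_biUnion_le _))

theorem filt_le (d : ℕ) (𝓔 : Finset (Finset V)) (z : V) (A : Finset V) :
    ((lev 𝓔 d).filter (fun F => z ∈ F ∧ Disjoint F A)).card ≤
      ((lev 𝓔 d).filter (fun F => z ∈ F)).card := by
  apply Finset.card_le_card
  intro F hF
  rw [Finset.mem_filter] at hF ⊢
  exact ⟨hF.1, hF.2.1⟩

/-- small overflow of a type S family at a pair centre, in terms of the sets of size `d`. -/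
theorem ovS_pair {d m : ℕ} {q : ℝ} (hp : Par d m q) (hlow : S_low) (hm : Fintype.card V = m)
    {𝓔 : Finset (Finset V)} (hF : Fam d 𝓔) (hS : TypeS d 𝓔) (A : Finset V) (hA : A.card = 2) :
    (ov d 𝓔 A : ℝ) ≤ (1 / 50) * U d m + ((lev 𝓔 d).filter (fun F => Disjoint F A)).card := by
  have h1 := ov_pair_le d 𝓔 A hA
  have h2 := ov_empty_le hF hS.1
  have h3 := hS.2
  have h4 := (hlow d m q hp V hm).1 𝓔 hF
  rw [hm] at h2 h3
  have hdel : del = 1 / 2 ^ 23 := rfl
  rw [hdel] at h3
  have hU := hp.U_pos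
  have h5 : (ov d 𝓔 A : ℝ) ≤ (𝓔.filter (fun F => d < F.card)).card +
    (𝓔.filter (fun F => F.card < d)).card + ((lev 𝓔 d).filter (fun F => Disjoint F A)).card := by
    exact_mod_cast h1
  linarith

theorem ovS_empty {d m : ℕ} {q : ℝ} (hp : Par d m q) (hm : Fintype.card V = m)
    {𝓔 : Finset (Finset V)} (hF : Fam d 𝓔) (hS : TypeS d 𝓔) :
    (ov d 𝓔 ∅ : ℝ) ≤ (1 / 100) * U d m := by
  have h2 := ov_empty_le hF hS.1
  have h3 := hS.2
  rw [hm] at h2 h3
  have hdel : del = 1 / 2 ^ 23 := rfl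
  rw [hdel] at h3
  have hU := hp.U_pos
  have h5 : ov d 𝓔 ∅ = (𝓔.filter (fun F => d < F.card)).card := by
    unfold ov
    congr 1
    apply Finset.filter_congr
    intro F _
    rw [← Finset.bot_eq_empty, symmDiff_bot]
  rw [h5]
  linarith

theorem goal_of_real {d m : ℕ} {q : ℝ} (hp : Par d m q) (hm : Fintype.card V = m)
    {𝓐 𝓑 : Finset (Finset V)} {D : Finset V} (A : Finset V) (x : V) (hA : A.card % 2 = 0)
    (h : (ov d 𝓐 A : ℝ) + ov d 𝓑 (symmDiff (symmDiff A {x}) D) ≤ 2 * U d m) : Goal d 𝓐 𝓑 D := by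
  refine ⟨A, x, Nat.even_iff.2 hA, ?_⟩
  rw [hm]
  unfold U at h
  exact_mod_cast h

/-- the case `|D| = 5`, with exactly two popular elements on the `𝓑` side. -/
theorem case5 {d m : ℕ} {q : ℝ} (hp : Par d m q) (hlow : S_low) (hm : Fintype.card V = m)
    {𝓐 𝓑 : Finset (Finset V)} {D : Finset V} (hC : Cross d 𝓐 𝓑 D) (hSa : TypeS d 𝓐)
    (hSb : TypeS d 𝓑) (hD : D.card = 5) (Y : Finset V) (hYD : Y ⊆ D) (hY : Y.card = 2)
    (ha : (((lev 𝓐 d).filter (fun F => Disjoint F D)).card : ℝ) ≤ tau * U d m)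
    (hb : (((lev 𝓑 d).filter (fun F => Disjoint F D)).card : ℝ) ≤ tau * U d m)
    (ha2 : ∀ z ∈ Y, (((lev 𝓐 d).filter (fun F => z ∈ F)).card : ℝ) ≤ tau * U d m)
    (hb2 : ∀ z ∈ D \ Y, (((lev 𝓑 d).filter (fun F => z ∈ F)).card : ℝ) ≤ tau * U d m) :
    Goal d 𝓐 𝓑 D := by
  have hU := hp.U_pos
  have htau : tau = 1 / 2 ^ 31 := rfl
  have hDY : (D \ Y).card = 3 := by rw [Finset.card_sdiff_of_subset hYD, hD, hY]
  obtain ⟨a, ha3⟩ : (D \ Y).Nonempty := by rw [← Finset.card_pos, hDY]; norm_num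
  set A := (D \ Y).erase a with hAd
  have hA : A.card = 2 := by rw [hAd, Finset.card_erase_of_mem ha3, hDY]
  have haA : a ∉ A := Finset.notMem_erase _ _
  -- the centre on the 𝓑 side is Y
  have hins : symmDiff A {a} = D \ Y := by
    ext v
    rw [Finset.mem_symmDiff, Finset.mem_singleton, hAd, Finset.mem_erase]
    constructor
    · rintro (⟨⟨_, h⟩, _⟩ | ⟨rfl, _⟩)
      · exact h
      · exact ha3
    · intro h
      by_cases hv : v = a
      · right; exact ⟨hv, fun h' => h'.1 hv⟩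
      · left; exact ⟨⟨hv, h⟩, hv⟩
  have hcen : symmDiff (symmDiff A {a}) D = Y := by
    rw [hins]
    ext v
    rw [Finset.mem_symmDiff, Finset.mem_sdiff]
    constructor
    · rintro (⟨⟨h1, _⟩, h2⟩ | ⟨h1, h2⟩)
      · exact absurd h1 h2
      · by_contra h3; exact h2 ⟨h1, h3⟩
    · intro h
      right; exact ⟨hYD h, fun h' => h'.2 h⟩
  apply goal_of_real hp hm A a (by omega)
  rw [hcen]
  have h1 := ovS_pair hp hlow hm hC.fa hSa A hA
  have h2 := ovS_pair hp hlow hm hC.fb hSb Y hY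
  -- 𝓑 side
  have h3 : (((lev 𝓑 d).filter (fun F => Disjoint F Y)).card : ℝ) ≤ 4 * (tau * U d m) := by
    have h4 := cover_disj (d := d) 𝓑 Y D
    have h5 : (((lev 𝓑 d).filter (fun F => Disjoint F Y)).card : ℝ) ≤
      ((lev 𝓑 d).filter (fun F => Disjoint F D)).card +
      ∑ z ∈ D \ Y, (((lev 𝓑 d).filter (fun F => z ∈ F ∧ Disjoint F Y)).card : ℝ) := by
      exact_mod_cast h4
    have h6 : ∑ z ∈ D \ Y, (((lev 𝓑 d).filter (fun F => z ∈ F ∧ Disjoint F Y)).card : ℝ) ≤
        ∑ z ∈ D \ Y, tau * U d m := by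
      apply Finset.sum_le_sum
      intro z hz
      refine le_trans ?_ (hb2 z hz)
      exact_mod_cast filt_le d 𝓑 z Y
    rw [Finset.sum_const, hDY, nsmul_eq_mul] at h6
    push_cast at h6
    linarith
  -- 𝓐 side
  have h7 : (((lev 𝓐 d).filter (fun F => Disjoint F A)).card : ℝ) ≤ 3 * (tau * U d m) + U d m := by
    have h4 := cover_disj (d := d) 𝓐 A D
    have h5 : (((lev 𝓐 d).filter (fun F => Disjoint F A)).card : ℝ) ≤
      ((lev 𝓐 d).filter (fun F => Disjoint F D)).card +
      ∑ z ∈ D \ A, (((lev 𝓐 d).filter (fun F => z ∈ F ∧ Disjoint F A)).card : ℝ) := by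
      exact_mod_cast h4
    have hDA : D \ A = insert a Y := by
      ext v
      rw [Finset.mem_sdiff, hAd, Finset.mem_erase, Finset.mem_sdiff, Finset.mem_insert]
      constructor
      · rintro ⟨h1, h2⟩
        by_cases hv : v = a
        · left; exact hv
        · right; by_contra h3; exact h2 ⟨hv, h1, h3⟩
      · rintro (rfl | h)
        · exact ⟨(Finset.mem_sdiff.1 ha3).1, fun h => h.1 rfl⟩
        · exact ⟨hYD h, fun h' => h'.2.2 h⟩
    rw [hDA, Finset.sum_insert (Finset.mem_sdiff.1 ha3).2] at h5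
    have h6 : ∑ z ∈ Y, (((lev 𝓐 d).filter (fun F => z ∈ F ∧ Disjoint F A)).card : ℝ) ≤
        ∑ z ∈ Y, tau * U d m := by
      apply Finset.sum_le_sum
      intro z hz
      refine le_trans ?_ (ha2 z hz)
      exact_mod_cast filt_le d 𝓐 z A
    rw [Finset.sum_const, hY, nsmul_eq_mul] at h6
    push_cast at h6
    have h8 := cnt3 hp.d1 hm 𝓐 a A hA haA
    have h9 : (((lev 𝓐 d).filter (fun F => a ∈ F ∧ Disjoint F A)).card : ℝ) ≤ U d m := by
      unfold U; exact_mod_cast h8
    linarith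
  rw [htau] at h3 h7
  linarith

/-- the case `|D| = 3`, when few sets of `𝓐` of size `d` avoid `D`. -/
theorem case3 {d m : ℕ} {q : ℝ} (hp : Par d m q) (hlow : S_low) (hm : Fintype.card V = m)
    {𝓐 𝓑 : Finset (Finset V)} {D : Finset V} (hC : Cross d 𝓐 𝓑 D) (hSa : TypeS d 𝓐)
    (hSb : TypeS d 𝓑) (hD : D.card = 3)
    (ha : (((lev 𝓐 d).filter (fun F => Disjoint F D)).card : ℝ) ≤ tau * U d m) :
    Goal d 𝓐 𝓑 D := by
  have hU := hp.U_pos
  have htau : tau = 1 / 2 ^ 31 := rfl
  obtain ⟨a, ha3⟩ : D.Nonempty := by rw [← Finset.card_pos, hD]; norm_num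
  set A := D.erase a with hAd
  have hA : A.card = 2 := by rw [hAd, Finset.card_erase_of_mem ha3, hD]
  have haA : a ∉ A := Finset.notMem_erase _ _
  have hins : symmDiff A {a} = D := by
    ext v
    rw [Finset.mem_symmDiff, Finset.mem_singleton, hAd, Finset.mem_erase]
    constructor
    · rintro (⟨⟨_, h⟩, _⟩ | ⟨rfl, _⟩)
      · exact h
      · exact ha3
    · intro h
      by_cases hv : v = a
      · right; exact ⟨hv, fun h' => h'.1 hv⟩
      · left; exact ⟨⟨hv, h⟩, hv⟩
  have hcen : symmDiff (symmDiff A {a}) D = ∅ := by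
    rw [hins, symmDiff_self, Finset.bot_eq_empty]
  apply goal_of_real hp hm A a (by omega)
  rw [hcen]
  have h1 := ovS_pair hp hlow hm hC.fa hSa A hA
  have h2 := ovS_empty hp hm hC.fb hSb
  have h7 : (((lev 𝓐 d).filter (fun F => Disjoint F A)).card : ℝ) ≤ tau * U d m + U d m := by
    have h4 := cover_disj (d := d) 𝓐 A D
    have h5 : (((lev 𝓐 d).filter (fun F => Disjoint F A)).card : ℝ) ≤
      ((lev 𝓐 d).filter (fun F => Disjoint F D)).card +
      ∑ z ∈ D \ A, (((lev 𝓐 d).filter (fun F => z ∈ F ∧ Disjoint F A)).card : ℝ) := by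
      exact_mod_cast h4
    have hDA : D \ A = {a} := by
      ext v
      rw [Finset.mem_sdiff, hAd, Finset.mem_erase, Finset.mem_singleton]
      constructor
      · rintro ⟨h1, h2⟩
        by_contra hv
        exact h2 ⟨hv, h1⟩
      · rintro rfl
        exact ⟨ha3, fun h => h.1 rfl⟩
    rw [hDA, Finset.sum_singleton] at h5
    have h8 := cnt3 hp.d1 hm 𝓐 a A hA haA
    have h9 : (((lev 𝓐 d).filter (fun F => a ∈ F ∧ Disjoint F A)).card : ℝ) ≤ U d m := by
      unfold U; exact_mod_cast h8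
    linarith
  rw [htau] at h7
  linarith

end

end Pool.Agent.H30.Diam
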