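import Pool.Agent.H30.Diam.Defs

/-! Project DIAM: statements (as `Prop`s) of the lemmas for MP_6327e0_co, even case. -/

namespace Pool.Agent.H30.Diam

open Finset

/-- DIAM-1 (blow-up lemma). Induction on the list, with all of `B`, `g` generalized. -/
def S_blow : Prop := ∀ (α : Type) [DecidableEq α] (P q θ : ℝ), 0 < P → 0 < θ → θ ≤ 1 → q < 1 →
  q * θ = P → ∀ (l : List α), l.Nodup → ∀ (B : Finset (Finset α)), B.Nonempty →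
  (∀ F ∈ B, F ⊆ l.toFinset) → ∀ (g : Finset α → ℕ), (∀ W, ∀ F ∈ B, g W ≤ (F \ W).card) →
  EL q l (fun W => (θ⁻¹) ^ (g W)) * EL P l (fun W => ind (∃ F ∈ B, F ⊆ W)) ≤ 1

/-- DIAM-2 (slice to measure). -/
def S_slice : Prop := ∀ (V : Type) [Fintype V] [DecidableEq V] (k : ℕ) (P : ℝ), 0 < P → P ≤ 1 →
  8 * (k : ℝ) ≤ P * Fintype.card V → ∀ B : Finset (Finset V), (∀ F ∈ B, F.card = k) →
  (1 / 2 : ℝ) * B.card ≤
    ((Fintype.card V).choose k : ℝ) * Ev P (fun W : Finset V => ind (∃ F ∈ B, F ⊆ W))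

/-- DIAM-3 (mixing, maximal correlation of the disjoint pair). -/
def S_mix : Prop := ∀ (α : Type) [DecidableEq α] (q : ℝ), 0 < q → q ≤ 1 / 4 → ∀ (l : List α),
  ∀ (u v : Finset α → ℝ),
  |DL q l (fun W W' => u W * v W') - EL q l u * EL q l v| ≤
    q * ((EL q l (fun W => u W ^ 2) - (EL q l u) ^ 2) +
      (EL q l (fun W => v W ^ 2) - (EL q l v) ^ 2))

/-- DIAM-4 (cross hits). -/
def S_cross : Prop := ∀ (V : Type) [Fintype V] [DecidableEq V] (q : ℝ), 0 < q → q ≤ 1 / 4 →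
  ∀ (a : Finset V → Finset V) (w : ℕ), (∀ W, Disjoint (a W) W) → (∀ W, (a W).card ≤ w) →
  Dv q (fun W W' => ((a W ∩ W').card : ℝ)) ≤ 2 * q * w ∧
  Dv q (fun W W' => ((a W' ∩ W).card : ℝ)) ≤ 2 * q * w

/-- DIAM-5 (expected number of common elements). -/
def S_common : Prop := ∀ (V : Type) [Fintype V] [DecidableEq V] (q : ℝ), 0 < q → q ≤ 1 / 4 →
  ∀ (a b : Finset V → Finset V) (wa wb : ℕ), (∀ W, (a W).card ≤ wa) → (∀ W, (b W).card ≤ wb) →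
  Dv q (fun W W' => ((a W ∩ b W').card : ℝ)) ≤
    ∑ z : V, Ev q (fun W => ind (z ∈ a W)) * Ev q (fun W => ind (z ∈ b W)) + q * (wa + wb)

/-- DIAM-6 (existence of a good disjoint pair). -/
def S_pair : Prop := ∀ (V : Type) [Fintype V] [DecidableEq V] (q : ℝ), 0 < q → q ≤ 1 / 4 →
  ∀ (G B : Finset (Finset V)) (p₁ p₂ : Finset V → Prop) (wG wB e : ℕ) (x y : ℝ),
  x ≤ Ev q (fun W => ind (p₁ W)) → (∀ W, p₁ W → (lo G W).card ≤ wG) →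
  y ≤ Ev q (fun W => ind (p₂ W)) → (∀ W, p₂ W → (lo B W).card ≤ wB) →
  (1 - x) + (1 - y) + 2 * q * (wG + wB) / (e + 1) < 1 →
  ∃ W W' : Finset V, Disjoint W W' ∧ p₁ W ∧ p₂ W' ∧
    (lo G W ∩ W').card + (lo B W' ∩ W).card ≤ e

/-- DIAM-7 (large families have small leftovers). -/
def S_tail : Prop := ∀ (d m : ℕ) (q : ℝ), Par d m q → ∀ (V : Type) [Fintype V] [DecidableEq V],
  Fintype.card V = m → ∀ (i j : ℕ) (B : Finset (Finset V)), j ≤ 2 * d →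
  (∀ F ∈ B, F.card = d + 2 * j) → eps i / (2 * i + 1) * U d m ≤ B.card →
  B.Nonempty ∧ Ev q (fun W : Finset V => ind (2 * j + 1 + (i + j) / 200 < (lo B W).card)) ≤ q

/-- DIAM-8 (re-centring). -/
def S_recentre : Prop := ∀ (d m : ℕ) (q : ℝ), Par d m q →
  ∀ (V : Type) [Fintype V] [DecidableEq V], Fintype.card V = m →
  ∀ 𝓔 : Finset (Finset V), Fam d 𝓔 → ∀ (t i r : ℕ) (G : Finset (Finset V)) (X : Finset V),
  G ⊆ lev 𝓔 (d + 2 * t) → G.Nonempty → X.card = 2 * t → 1 ≤ t → t ≤ d → t ≤ i → i / 8 + r < i →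
  (1 / 100 : ℝ) ≤ Ev q (fun W => ind ((lo G W \ X).card ≤ r ∧ (lo G W).card ≤ 4 * t)) →
  ((lev (sh X 𝓔) (d + 2 * i)).card : ℝ) ≤ eps i * U d m

/-- DIAM-9 (popular kernel, small `t`). -/
def S_findS : Prop := ∀ (d m : ℕ) (q : ℝ), Par d m q →
  ∀ (V : Type) [Fintype V] [DecidableEq V], Fintype.card V = m →
  ∀ 𝓔 : Finset (Finset V), Fam d 𝓔 → ∀ (t : ℕ) (G : Finset (Finset V)),
  G ⊆ lev 𝓔 (d + 2 * t) → 1 ≤ t → t ≤ 3 → t ≤ d →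
  eps (t + 1) / (2 * (t + 1) + 1) * U d m ≤ G.card →
  ∃ X : Finset V, X.card = 2 * t ∧
    (1 / 20 : ℝ) ≤ Ev q (fun W => ind (X ⊆ lo G W ∧ (lo G W).card ≤ 2 * t + 1))

/-- DIAM-10 (popular kernel, large `t`). -/
def S_findL : Prop := ∀ (d m : ℕ) (q : ℝ), Par d m q →
  ∀ (V : Type) [Fintype V] [DecidableEq V], Fintype.card V = m →
  ∀ 𝓔 : Finset (Finset V), Fam d 𝓔 → ∀ (t : ℕ) (G : Finset (Finset V)),
  G ⊆ lev 𝓔 (d + 2 * t) → 4 ≤ t → t ≤ d → eps (t + 1) / (2 * (t + 1) + 1) * U d m ≤ G.card →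
  ∃ X : Finset V, X.card = 2 * t ∧
    (1 / 100 : ℝ) ≤ Ev q (fun W => ind ((lo G W \ X).card ≤ 3 + t / 8 ∧ (lo G W).card ≤ 4 * t))

/-- DIAM-11 (stage 1). -/
def S_stage1 : Prop := ∀ (d m : ℕ) (q : ℝ), Par d m q →
  ∀ (V : Type) [Fintype V] [DecidableEq V], Fintype.card V = m →
  ∀ 𝓔 : Finset (Finset V), Fam d 𝓔 → ∃ X : Finset V, Even X.card ∧ Good d (sh X 𝓔) 1

/-- DIAM-12 (capture): a family with a popular leftover value `Y` forces large families to meet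
`Y`. -/
def S_capt : Prop := ∀ (d m : ℕ) (q : ℝ), Par d m q →
  ∀ (V : Type) [Fintype V] [DecidableEq V], Fintype.card V = m →
  ∀ 𝓔 : Finset (Finset V), Fam d 𝓔 → ∀ (i j : ℕ) (G C : Finset (Finset V)) (Y : Finset V),
  i ≤ 1 → j ≤ 1 → G ⊆ lev 𝓔 (d + 2 * i) → G.Nonempty → C ⊆ lev 𝓔 (d + 2 * j) →
  tau * U d m ≤ C.card → Y.card ≤ 3 →
  (1 / 100 : ℝ) ≤ Ev q (fun W => ind (lo G W = Y)) →
  ∃ F ∈ C, i + j ≤ (F ∩ Y).card

/-- DIAM-13 (a popular pair `X` such that many sets of the top level contain `X`). -/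
def S_popPair : Prop := ∀ (d m : ℕ) (q : ℝ), Par d m q →
  ∀ (V : Type) [Fintype V] [DecidableEq V], Fintype.card V = m →
  ∀ 𝓔 : Finset (Finset V), Fam d 𝓔 → del * U d m ≤ (lev 𝓔 (d + 2)).card →
  ∃ X : Finset V, X.card = 2 ∧
    (∃ G ⊆ lev 𝓔 (d + 2), G.Nonempty ∧
      (1 / 100 : ℝ) ≤ Ev q (fun W => ind (X ⊆ lo G W ∧ (lo G W).card ≤ 3))) ∧
    (1 / 5 : ℝ) * (lev 𝓔 (d + 2)).card ≤ ((lev 𝓔 (d + 2)).filter (fun F => X ⊆ F)).card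

/-- DIAM-14 (the third element). -/
def S_triple : Prop := ∀ (d m : ℕ) (q : ℝ), Par d m q →
  ∀ (V : Type) [Fintype V] [DecidableEq V], Fintype.card V = m →
  ∀ 𝓔 : Finset (Finset V), Fam d 𝓔 → ∀ X : Finset V, X.card = 2 →
  tau * U d m ≤ ((lev 𝓔 (d + 2)).filter (fun F => X ⊆ F)).card →
  tau * U d m ≤ ((lev 𝓔 d).filter (fun F => Disjoint F X)).card →
  ∃ z, z ∉ X ∧
    (1 / 2 : ℝ) ≤ Ev q (fun W => ind (lo ((lev 𝓔 (d + 2)).filter (fun F => X ⊆ F)) W = insert z X)) ∧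
    (1 / 2 : ℝ) ≤ Ev q (fun W => ind (lo ((lev 𝓔 d).filter (fun F => Disjoint F X)) W = {z}))

/-- DIAM-15 (structure of a family with a large top level at an optimal centre). -/
def S_struct : Prop := ∀ (d m : ℕ) (q : ℝ), Par d m q →
  ∀ (V : Type) [Fintype V] [DecidableEq V], Fintype.card V = m →
  ∀ 𝓔 : Finset (Finset V), Fam d 𝓔 → Good d 𝓔 1 →
  (∀ X : Finset V, X.card = 2 → Good d (sh X 𝓔) 1 →
    (lev 𝓔 (d + 2)).card ≤ (lev (sh X 𝓔) (d + 2)).card) →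
  del * U d m ≤ (lev 𝓔 (d + 2)).card →
  ∃ Q : Finset V, Q.card = 3 ∧
    (((lev 𝓔 (d + 2)).filter (fun F => ¬ Q ⊆ F)).card : ℝ) ≤ 3 * tau * U d m ∧
    (((lev 𝓔 d).filter (fun F => Disjoint F Q)).card : ℝ) ≤ tau * U d m ∧
    (del / 10) * U d m ≤ ((lev 𝓔 (d + 2)).filter (fun F => Q ⊆ F)).card ∧
    ∀ z ∈ Q, (del / 10) * U d m ≤ ((lev 𝓔 d).filter (fun F => F ∩ Q = {z})).card

/-- DIAM-16 (Kruskal-Katona loss). -/
def S_kk : Prop := ∀ (V : Type) [DecidableEq V] (R : Finset V) (a b s : ℕ)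
  (𝓖 𝓕 : Finset (Finset V)),
  a = b + s → 2 ^ 12 * (a + 1) ≤ R.card →
  (∀ G ∈ 𝓖, G ⊆ R ∧ G.card = a) → (∀ F ∈ 𝓕, F ⊆ R ∧ F.card = b) →
  (∀ G ∈ 𝓖, ∀ F ∈ 𝓕, ¬ Disjoint G F) →
  2 ^ 12 * 8 ^ s * 𝓖.card ≤ R.card.choose b →
  2 ^ (s + 8) * 𝓖.card + 𝓕.card ≤ R.card.choose b

/-- DIAM-17 (exact step: average over the four centres). -/
def S_exact : Prop := ∀ (d : ℕ), 1 ≤ d → ∀ (V : Type) [Fintype V] [DecidableEq V],
  2 ^ 20 * d ≤ Fintype.card V → ∀ 𝓔 : Finset (Finset V), Fam d 𝓔 → Good d 𝓔 1 →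
  ∀ Q : Finset V, Q.card = 3 →
  (((lev 𝓔 (d + 2)).filter (fun F => ¬ Q ⊆ F)).card : ℝ) ≤ 3 * tau * U d (Fintype.card V) →
  (((lev 𝓔 d).filter (fun F => Disjoint F Q)).card : ℝ) ≤ tau * U d (Fintype.card V) →
  ∑ A ∈ Q.powerset.filter (fun A => Even A.card),
    (𝓔.filter (fun F => d < (symmDiff F A).card)).card ≤ 4 * (Fintype.card V - 3).choose (d - 1)

/-- DIAM-18 (the even case for parity families). -/
def S_even : Prop := ∀ (d m : ℕ) (q : ℝ), Par d m q →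
  ∀ (V : Type) [Fintype V] [DecidableEq V], Fintype.card V = m →
  ∀ 𝓔 : Finset (Finset V), Fam d 𝓔 →
  ∃ A : Finset V, (𝓔.filter (fun F => d < (symmDiff F A).card)).card ≤ (m - 3).choose (d - 1)

/-- DIAM-19 (the even case of Q1). -/
def S_final : Prop := ∃ c : ℕ, ∀ n d : ℕ, 1 ≤ d → c * (2 * d) < n →
  ∀ 𝓕 : Finset (Finset (Fin n)), (∀ F ∈ 𝓕, ∀ G ∈ 𝓕, (symmDiff F G).card ≤ 2 * d) →
  ∃ A : Finset (Fin n), (𝓕.filter (fun F => d < (symmDiff F A).card)).card ≤ (n - 2).choose (d - 1)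

end Pool.Agent.H30.Diam
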