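import Pool.Agent.H30.Diam.Stubs

/-! Project DIAM: statements for the odd case `u = 2d + 1`.

The family is split by parity; class 0 (re-centred) is `𝓐`, class 1 (re-centred) is `𝓑`, both are
parity families (`Fam d`), `D` (odd size) is the difference of the two centres:
the distance of `F ∈ 𝓐` and `G ∈ 𝓑` in the original cube is `|F △ G △ D|`. -/

namespace Pool.Agent.H30.Diam

open Finset

section
variable {V : Type} [Fintype V] [DecidableEq V]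

/-- overflow of a parity family at the centre `A`. -/
def ov (d : ℕ) (𝓔 : Finset (Finset V)) (A : Finset V) : ℕ :=
  (𝓔.filter (fun F => d < (symmDiff F A).card)).card

/-- the two classes of a family of diameter `≤ 2d+1`. -/
structure Cross (d : ℕ) (𝓐 𝓑 : Finset (Finset V)) (D : Finset V) : Prop where
  fa : Fam d 𝓐
  fb : Fam d 𝓑
  odd : D.card % 2 = 1
  dist : ∀ F ∈ 𝓐, ∀ G ∈ 𝓑, (symmDiff (symmDiff F G) D).card ≤ 2 * d + 1

/-- the conclusion in the odd case. -/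
def Goal (d : ℕ) (𝓐 𝓑 : Finset (Finset V)) (D : Finset V) : Prop :=
  ∃ (A : Finset V) (x : V), Even A.card ∧
    ov d 𝓐 A + ov d 𝓑 (symmDiff (symmDiff A {x}) D) ≤
      2 * (Fintype.card V - 3).choose (d - 1)

/-- type S: centre `∅` leaves very little outside. -/
def TypeS (d : ℕ) (𝓔 : Finset (Finset V)) : Prop :=
  Good d 𝓔 1 ∧ ((lev 𝓔 (d + 2)).card : ℝ) ≤ del * U d (Fintype.card V)

/-- type K: triangle structure on `Q`. -/
def TypeK (d : ℕ) (𝓔 : Finset (Finset V)) (Q : Finset V) : Prop :=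
  Good d 𝓔 1 ∧ Q.card = 3 ∧
    (((lev 𝓔 (d + 2)).filter (fun F => ¬ Q ⊆ F)).card : ℝ) ≤ 3 * tau * U d (Fintype.card V) ∧
    (((lev 𝓔 d).filter (fun F => Disjoint F Q)).card : ℝ) ≤ tau * U d (Fintype.card V) ∧
    (del / 10) * U d (Fintype.card V) ≤ ((lev 𝓔 (d + 2)).filter (fun F => Q ⊆ F)).card ∧
    ∀ z ∈ Q, (del / 10) * U d (Fintype.card V) ≤ ((lev 𝓔 d).filter (fun F => F ∩ Q = {z})).card

end

/-- DIAM-20. -/
def S_pairD : Prop := ∀ (V : Type) [Fintype V] [DecidableEq V] (q : ℝ), 0 < q → q ≤ 1 / 4 →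
  ∀ (G B : Finset (Finset V)) (D : Finset V) (p₁ p₂ : Finset V → Prop) (wG wB e eD : ℕ) (x y : ℝ),
  x ≤ Ev q (fun W => ind (p₁ W)) → (∀ W, p₁ W → (lo G W).card ≤ wG) →
  y ≤ Ev q (fun W => ind (p₂ W)) → (∀ W, p₂ W → (lo B W).card ≤ wB) →
  (1 - x) + (1 - y) + 2 * q * (wG + wB) / (e + 1) + 2 * q * D.card / (eD + 1) < 1 →
  ∃ W W' : Finset V, Disjoint W W' ∧ p₁ W ∧ p₂ W' ∧
    (lo G W ∩ W').card + (lo B W' ∩ W).card ≤ e ∧ (D ∩ W).card + (D ∩ W').card ≤ eD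

/-- DIAM-21 (sampling lemma across the classes). -/
def S_samp : Prop := ∀ (d m : ℕ) (q : ℝ), Par d m q →
  ∀ (V : Type) [Fintype V] [DecidableEq V], Fintype.card V = m →
  ∀ (𝓐 𝓑 : Finset (Finset V)) (D : Finset V), Cross d 𝓐 𝓑 D →
  ∀ (i j : ℕ) (G B : Finset (Finset V)) (J : Finset V) (p₁ p₂ : Finset V → Prop),
  i ≤ 1 → j ≤ 1 → G ⊆ lev 𝓐 (d + 2 * i) → B ⊆ lev 𝓑 (d + 2 * j) →
  tau * U d m ≤ G.card → tau * U d m ≤ B.card → J.card ≤ 10 →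
  1 + 1000 * q ≤ Ev q (fun W => ind (p₁ W)) + Ev q (fun W => ind (p₂ W)) →
  ∃ W W' : Finset V, Disjoint W W' ∧ p₁ W ∧ p₂ W' ∧
    (lo G W).card ≤ 2 * i + 1 ∧ (lo B W').card ≤ 2 * j + 1 ∧
    Disjoint (lo G W) W' ∧ Disjoint (lo B W') W ∧ Disjoint J W ∧ Disjoint J W' ∧
    (symmDiff (symmDiff (lo G W) (lo B W')) D).card + 2 * i + 2 * j ≤
      1 + (lo G W).card + (lo B W').card

/-- DIAM-22 (low levels are negligible). -/
def S_low : Prop := ∀ (d m : ℕ) (q : ℝ), Par d m q →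
  ∀ (V : Type) [Fintype V] [DecidableEq V], Fintype.card V = m →
  (∀ 𝓔 : Finset (Finset V), Fam d 𝓔 →
    ((𝓔.filter (fun F => F.card < d)).card : ℝ) ≤ 1 / 100 * U d m) ∧
  (((m - 1).choose (d - 1) : ℕ) : ℝ) ≤ 101 / 100 * U d m

/-- DIAM-23 (common popular point). -/
def S_commonpt : Prop := ∀ (d m : ℕ) (q : ℝ), Par d m q →
  ∀ (V : Type) [Fintype V] [DecidableEq V], Fintype.card V = m →
  ∀ (𝓐 𝓑 : Finset (Finset V)) (D : Finset V), Cross d 𝓐 𝓑 D → D.card = 3 →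
  tau * U d m ≤ ((lev 𝓐 d).filter (fun F => Disjoint F D)).card →
  tau * U d m ≤ ((lev 𝓑 d).filter (fun F => Disjoint F D)).card →
  ∃ x, x ∉ D ∧
    (1 / 2 : ℝ) ≤ Ev q (fun W => ind (lo ((lev 𝓐 d).filter (fun F => Disjoint F D)) W = {x})) ∧
    (1 / 2 : ℝ) ≤ Ev q (fun W => ind (lo ((lev 𝓑 d).filter (fun F => Disjoint F D)) W = {x}))

/-- DIAM-24 (exact step for the exceptional configuration of the odd case). -/
def S_exactB : Prop := ∀ (d : ℕ), 1 ≤ d → ∀ (V : Type) [Fintype V] [DecidableEq V],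
  2 ^ 20 * d ≤ Fintype.card V → ∀ (𝓐 𝓑 : Finset (Finset V)) (D : Finset V) (x : V),
  Cross d 𝓐 𝓑 D → D.card = 3 → x ∉ D →
  Good d 𝓐 1 → Good d 𝓑 1 →
  ((lev 𝓐 (d + 2)).card : ℝ) ≤ del * U d (Fintype.card V) →
  ((lev 𝓑 (d + 2)).card : ℝ) ≤ del * U d (Fintype.card V) →
  (((lev 𝓐 d).filter (fun F => Disjoint F (insert x D))).card : ℝ) ≤ tau * U d (Fintype.card V) →
  (((lev 𝓑 d).filter (fun F => Disjoint F (insert x D))).card : ℝ) ≤ tau * U d (Fintype.card V) →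
  3 * ov d 𝓐 ∅ + ∑ z ∈ D, ov d 𝓐 (D.erase z) + (3 * ov d 𝓑 ∅ + ∑ z ∈ D, ov d 𝓑 (D.erase z)) ≤
    12 * (Fintype.card V - 3).choose (d - 1)

/-- DIAM-25 (both classes of type S). -/
def S_ss : Prop := ∀ (d m : ℕ) (q : ℝ), Par d m q →
  ∀ (V : Type) [Fintype V] [DecidableEq V], Fintype.card V = m →
  ∀ (𝓐 𝓑 : Finset (Finset V)) (D : Finset V), Cross d 𝓐 𝓑 D → TypeS d 𝓐 → TypeS d 𝓑 →
  Goal d 𝓐 𝓑 D

/-- DIAM-26 (pure combinatorics for the K-S case). -/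
def S_ksfin : Prop := ∀ (V : Type) [DecidableEq V] (Q D L : Finset V), Q.card = 3 →
  D.card % 2 = 1 → L.card ≤ 1 →
  (∀ z ∈ Q, (symmDiff (symmDiff {z} L) D).card ≤ 2 + L.card) →
  (symmDiff (symmDiff Q L) D).card ≤ 2 + L.card →
  (∃ A x, A ⊆ Q ∧ Even A.card ∧ symmDiff A {x} = D) ∨
  (∃ (y v : V) (A : Finset V) (x : V), y ∉ Q ∧ v ∉ Q ∧ y ≠ v ∧ A ⊆ Q ∧ Even A.card ∧
    symmDiff (symmDiff A {x}) D = {y, v} ∧ (L = {y} ∨ L = {v}))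

/-- DIAM-27 (overflow of type K at its four centres). -/
def S_kov : Prop := ∀ (d m : ℕ) (q : ℝ), Par d m q →
  ∀ (V : Type) [Fintype V] [DecidableEq V], Fintype.card V = m →
  ∀ (𝓔 : Finset (Finset V)) (Q : Finset V), Fam d 𝓔 → TypeK d 𝓔 Q →
  ∀ A ⊆ Q, Even A.card → (ov d 𝓔 A : ℝ) ≤ (1 + 1 / 100) * U d m

/-- DIAM-28 (one class of type K, the other of type S). -/
def S_ks : Prop := ∀ (d m : ℕ) (q : ℝ), Par d m q →
  ∀ (V : Type) [Fintype V] [DecidableEq V], Fintype.card V = m →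
  ∀ (𝓐 𝓑 : Finset (Finset V)) (D Q : Finset V), Cross d 𝓐 𝓑 D → TypeK d 𝓐 Q → TypeS d 𝓑 →
  Goal d 𝓐 𝓑 D

/-- DIAM-29 (pure combinatorics for the K-K case). -/
def S_mfin : Prop := ∀ (V : Type) [DecidableEq V] (Q Q' D : Finset V), Q.card = 3 →
  Q'.card = 3 → D.card % 2 = 1 →
  (∀ A ⊆ Q, Even A.card → ∀ A' ⊆ Q', Even A'.card →
    (symmDiff (symmDiff (Q \ A) (Q' \ A')) D).card ≤ 3) →
  ∃ φ : Finset V → Finset V, (∀ A ⊆ Q, Even A.card → φ A ⊆ Q' ∧ Even (φ A).card ∧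
      (symmDiff (symmDiff A (φ A)) D).card = 1) ∧
    (∀ A ⊆ Q, Even A.card → ∀ B ⊆ Q, Even B.card → φ A = φ B → A = B)

/-- DIAM-30 (both classes of type K). -/
def S_kkcase : Prop := ∀ (d m : ℕ) (q : ℝ), Par d m q →
  ∀ (V : Type) [Fintype V] [DecidableEq V], Fintype.card V = m →
  ∀ (𝓐 𝓑 : Finset (Finset V)) (D Q Q' : Finset V), Cross d 𝓐 𝓑 D → TypeK d 𝓐 Q →
  TypeK d 𝓑 Q' → Goal d 𝓐 𝓑 D

/-- DIAM-31 (dichotomy). -/
def S_dich : Prop := ∀ (d m : ℕ) (q : ℝ), Par d m q →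
  ∀ (V : Type) [Fintype V] [DecidableEq V], Fintype.card V = m →
  ∀ 𝓔 : Finset (Finset V), Fam d 𝓔 →
  ∃ X : Finset V, Even X.card ∧ (TypeS d (sh X 𝓔) ∨ ∃ Q, TypeK d (sh X 𝓔) Q)

/-- DIAM-32 (odd case for two parity classes). -/
def S_odd : Prop := ∀ (d m : ℕ) (q : ℝ), Par d m q →
  ∀ (V : Type) [Fintype V] [DecidableEq V], Fintype.card V = m →
  ∀ (𝓐 𝓑 : Finset (Finset V)) (D : Finset V), Cross d 𝓐 𝓑 D → Goal d 𝓐 𝓑 D

/-- DIAM-33 (odd case of Q1, `d ≥ 1`). -/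
def S_finalodd : Prop := ∃ c : ℕ, ∀ n d : ℕ, 1 ≤ d → c * (2 * d + 1) < n →
  ∀ 𝓕 : Finset (Finset (Fin n)), (∀ F ∈ 𝓕, ∀ G ∈ 𝓕, (symmDiff F G).card ≤ 2 * d + 1) →
  ∃ (A : Finset (Fin n)) (x : Fin n),
    (𝓕.filter (fun F => d < (symmDiff F A \ {x}).card)).card ≤ 2 * (n - 3).choose (d - 1)

end Pool.Agent.H30.Diam
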