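import Pool.Agent.H30.Diam.Stubs2

/-! The last translation: from `S_final`, `S_finalodd` to statements with explicit balls. -/

namespace Pool.Agent.H30.Diam

open Finset

section
variable {n : ℕ}

theorem symmDiff_cancel_right (F A : Finset (Fin n)) : symmDiff (symmDiff F A) A = F := by
  rw [symmDiff_assoc, symmDiff_self, symmDiff_bot]

/-- families of diameter at most one lie in a double ball of radius zero. -/
theorem odd_zero (hn : 0 < n) (𝓕 : Finset (Finset (Fin n)))
    (h : ∀ F ∈ 𝓕, ∀ G ∈ 𝓕, (symmDiff F G).card ≤ 1) :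
    ∃ (A : Finset (Fin n)) (x : Fin n), ∀ F ∈ 𝓕, symmDiff F A \ {x} = ∅ := by
  rcases 𝓕.eq_empty_or_nonempty with rfl | ⟨F0, hF0⟩
  · exact ⟨∅, ⟨0, hn⟩, by simp⟩
  by_cases hall : ∀ F ∈ 𝓕, F = F0
  · refine ⟨F0, ⟨0, hn⟩, fun F hF => ?_⟩
    rw [hall F hF, symmDiff_self]; simp
  · push Not at hall
    obtain ⟨F1, hF1, hne⟩ := hall
    have h1 : (symmDiff F1 F0).card = 1 := by
      have h2 := h F1 hF1 F0 hF0
      have h3 : (symmDiff F1 F0).card ≠ 0 := by
        intro h0
        rw [Finset.card_eq_zero, ← Finset.bot_eq_empty, symmDiff_eq_bot] at h0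
        exact hne h0
      omega
    obtain ⟨x, hx⟩ := Finset.card_eq_one.1 h1
    refine ⟨F0, x, fun F hF => ?_⟩
    rw [Finset.sdiff_eq_empty_iff_subset]
    by_contra hc
    rw [Finset.not_subset] at hc
    obtain ⟨y, hy, hyx⟩ := hc
    rw [Finset.mem_singleton] at hyx
    have h4 := h F hF F0 hF0
    have h5 : symmDiff F F0 = {y} := by
      have : ({y} : Finset (Fin n)) ⊆ symmDiff F F0 := Finset.singleton_subset_iff.2 hy
      exact (Finset.eq_of_subset_of_card_le this (by simpa using h4)).symm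
    have h6 : symmDiff F F1 = symmDiff {y} {x} := by
      rw [← h5, ← hx, symmDiff_comm F1 F0, symmDiff_assoc, ← symmDiff_assoc F0 F0 F1,
        symmDiff_self, bot_symmDiff]
    have h7 := h F hF F1 hF1
    rw [h6] at h7
    have h8 : symmDiff ({y} : Finset (Fin n)) {x} = {y, x} := by
      ext v
      simp only [Finset.mem_symmDiff, Finset.mem_singleton, Finset.mem_insert]
      constructor
      · rintro (⟨h, _⟩ | ⟨h, _⟩)
        · exact Or.inl h
        · exact Or.inr h
      · rintro (rfl | rfl)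
        · exact Or.inl ⟨rfl, hyx⟩
        · exact Or.inr ⟨rfl, fun h => hyx h.symm⟩
    rw [h8, Finset.card_pair hyx] at h7
    omega

end

end Pool.Agent.H30.Diam
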